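import Pool.Agent.H465.CG.Stm3

/-!
# Project CG: twists by different characters of the class group are different
-/

set_option autoImplicit false

open NumberField IsDedekindDomain

namespace Pool.Agent.H115.CG

open Pool.Agent.H465.CG

/-- every class contains an ideal prime to `𝔮` -/
theorem exists_cop {K : Type} [Field K] [NumberField K] {𝔮 : Ideal (𝓞 K)} (h𝔮 : 𝔮 ≠ ⊥)
    (C : ClassGroup (𝓞 K)) : ∃ (𝔟 : Ideal (𝓞 K)) (h : 𝔟 ≠ ⊥), IsCoprime 𝔟 𝔮 ∧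
      ClassGroup.mk0 ⟨𝔟, mem_nonZeroDivisors_iff_ne_zero.mpr h⟩ = C := by
  by_cases htop : 𝔮 = ⊤
  · obtain ⟨𝔟, h𝔟⟩ := ClassGroup.mk0_surjective C
    have h0 : (𝔟 : Ideal (𝓞 K)) ≠ ⊥ := nonZeroDivisors.coe_ne_zero 𝔟
    refine ⟨𝔟, h0, ?_, h𝔟⟩
    rw [htop, Ideal.isCoprime_iff_sup_eq]
    exact sup_top_eq _
  · obtain ⟨𝔠, h𝔠⟩ := ClassGroup.mk0_surjective C⁻¹
    have h0 : (𝔠 : Ideal (𝓞 K)) ≠ ⊥ := nonZeroDivisors.coe_ne_zero 𝔠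
    obtain ⟨a, ha⟩ := IsDedekindDomain.exists_sup_span_eq (I := (𝔠 : Ideal (𝓞 K)) * 𝔮)
      (J := (𝔠 : Ideal (𝓞 K))) Ideal.mul_le_left (mul_ne_zero h0 h𝔮)
    have ha1 : a ∈ (𝔠 : Ideal (𝓞 K)) := by
      rw [← ha]
      exact Ideal.mem_sup_right (Ideal.mem_span_singleton_self a)
    obtain ⟨𝔟, h𝔟⟩ := Ideal.dvd_iff_le.mpr ((Ideal.span_singleton_le_iff_mem _).mpr ha1)
    have h1 : IsCoprime 𝔟 𝔮 := by
      rw [Ideal.isCoprime_iff_sup_eq, ← Ideal.one_eq_top]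
      apply mul_left_cancel₀ h0
      rw [mul_one, Ideal.mul_sup, ← h𝔟, sup_comm]
      exact ha
    have hb : 𝔟 ≠ ⊥ := by
      rintro rfl
      rw [Ideal.isCoprime_iff_sup_eq, bot_sup_eq] at h1
      exact htop h1
    refine ⟨𝔟, hb, h1, ?_⟩
    have h5 : ClassGroup.mk0 𝔠 * ClassGroup.mk0 ⟨𝔟, mem_nonZeroDivisors_iff_ne_zero.mpr hb⟩ = 1 := by
      rw [← map_mul, ClassGroup.mk0_eq_one_iff]
      change (((𝔠 : Ideal (𝓞 K)) * 𝔟 : Ideal (𝓞 K))).IsPrincipal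
      rw [← h𝔟]
      exact ⟨⟨a, rfl⟩⟩
    rw [h𝔠] at h5
    exact (inv_mul_eq_one.mp h5).symm

theorem sInj : SInj := by
  intro K _ _ m hm ψ hψ f f' hff
  have h𝔮 : Ideal.span {(m : 𝓞 K)} ≠ ⊥ := by
    rw [ne_eq, Ideal.span_singleton_eq_bot]
    exact_mod_cast Nat.one_le_iff_ne_zero.mp hm
  apply MonoidHom.ext
  intro C
  obtain ⟨𝔟, hb, hc, hC⟩ := exists_cop h𝔮 C
  have h1 : twc ψ f 𝔟 = twc ψ f' 𝔟 := by rw [hff]
  rw [twc_apply ψ f hb, twc_apply ψ f' hb, hC] at h1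
  exact Units.ext (mul_left_cancel₀ ((hψ 𝔟 hb).2 hc) h1)

end Pool.Agent.H115.CG
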