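import Pool.Agent.H676.ED.Stm

set_option autoImplicit false

/-! Project ED, `S_GAME`: Duplicator wins on locally consistent systems. -/

namespace Pool.Agent.H115.ED

open Finset Pool.Agent.W893.PR Pool.Agent.H676.GI Pool.Agent.H676.SC Pool.Agent.H676.ED

section lin

variable {F d : ℕ}

lemma z2_self (a : ZMod 2) : a + a = 0 := CharTwo.add_self_eq_zero a

lemma fd_self (a : Fd d) : a + a = 0 := by
  funext i
  exact z2_self (a i)

lemma dot_add_left (a b w : Fd d) : dot (a + b) w = dot a w + dot b w := by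
  unfold dot
  rw [← Finset.sum_add_distrib]
  apply Finset.sum_congr rfl
  intro i _
  rw [Pi.add_apply, add_mul]

lemma dot_add_right (a w w' : Fd d) : dot a (w + w') = dot a w + dot a w' := by
  unfold dot
  rw [← Finset.sum_add_distrib]
  apply Finset.sum_congr rfl
  intro i _
  rw [Pi.add_apply, mul_add]

lemma dot_zero_left (w : Fd d) : dot (0 : Fd d) w = 0 := by
  unfold dot
  apply Finset.sum_eq_zero
  intro i _
  rw [Pi.zero_apply, zero_mul]

lemma ite_symmDiff {M ι : Type} [DecidableEq ι] [AddCommGroup M] (hM : ∀ a : M, a + a = 0)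
    (Z1 Z2 : Finset ι) (e : ι) (m : M) :
    (if e ∈ symmDiff Z1 Z2 then m else 0) =
      (if e ∈ Z1 then m else 0) + (if e ∈ Z2 then m else 0) := by
  by_cases h1 : e ∈ Z1
  · by_cases h2 : e ∈ Z2
    · have h : e ∉ symmDiff Z1 Z2 := by
        rw [Finset.mem_symmDiff]
        tauto
      rw [if_neg h, if_pos h1, if_pos h2, hM]
    · have h : e ∈ symmDiff Z1 Z2 := by
        rw [Finset.mem_symmDiff]
        tauto
      rw [if_pos h, if_pos h1, if_neg h2, add_zero]
  · by_cases h2 : e ∈ Z2
    · have h : e ∈ symmDiff Z1 Z2 := by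
        rw [Finset.mem_symmDiff]
        tauto
      rw [if_pos h, if_neg h1, if_pos h2, zero_add]
    · have h : e ∉ symmDiff Z1 Z2 := by
        rw [Finset.mem_symmDiff]
        tauto
      rw [if_neg h, if_neg h1, if_neg h2, zero_add]

lemma coef_symmDiff (c : Fin F → Fin F → Fd d) (Z1 Z2 : Finset (Sym2 (Fin F))) (x : Fin F) :
    coef c (symmDiff Z1 Z2) x = coef c Z1 x + coef c Z2 x := by
  unfold coef
  rw [← Finset.sum_add_distrib]
  apply Finset.sum_congr rfl
  intro y _
  exact ite_symmDiff fd_self Z1 Z2 _ _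

lemma bsum_symmDiff (b : Sym2 (Fin F) → ZMod 2) (Z1 Z2 : Finset (Sym2 (Fin F))) :
    ∑ e ∈ symmDiff Z1 Z2, b e = ∑ e ∈ Z1, b e + ∑ e ∈ Z2, b e := by
  have h : ∀ Z : Finset (Sym2 (Fin F)), ∑ e ∈ Z, b e = ∑ e, if e ∈ Z then b e else 0 := by
    intro Z
    rw [Finset.sum_ite_mem, Finset.univ_inter]
  rw [h, h, h, ← Finset.sum_add_distrib]
  apply Finset.sum_congr rfl
  intro e _
  exact ite_symmDiff z2_self Z1 Z2 e _

lemma coef_empty (c : Fin F → Fin F → Fd d) (x : Fin F) : coef c ∅ x = 0 := by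
  unfold coef
  apply Finset.sum_eq_zero
  intro y _
  rw [if_neg (Finset.notMem_empty _)]

/-- sets of equations whose sum involves only the variables in `A` -/
def ZZ (E : SimpleGraph (Fin F)) (c : Fin F → Fin F → Fd d) (r : ℕ) (A : Finset (Fin F))
    (Z : Finset (Sym2 (Fin F))) : Prop :=
  (∀ e ∈ Z, e ∈ E.edgeSet) ∧ (tch Z).card ≤ r ∧ ∀ x, x ∉ A → coef c Z x = 0

/-- good assignments of differences -/
def Good (E : SimpleGraph (Fin F)) (c : Fin F → Fin F → Fd d) (r : ℕ)
    (b : Sym2 (Fin F) → ZMod 2) (A : Finset (Fin F)) (t : Fin F → Fd d) : Prop :=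
  ∀ Z, ZZ E c r A Z → ∑ x, dot (coef c Z x) (t x) = ∑ e ∈ Z, b e

variable {E : SimpleGraph (Fin F)} {c : Fin F → Fin F → Fd d} {q r k : ℕ}
  {b : Sym2 (Fin F) → ZMod 2}

lemma Good.mono {A A' : Finset (Fin F)} (h : A' ⊆ A) {t : Fin F → Fd d} (ht : Good E c r b A t) :
    Good E c r b A' t := by
  intro Z hZ
  exact ht Z ⟨hZ.1, hZ.2.1, fun x hx => hZ.2.2 x (fun hx' => hx (h hx'))⟩

lemma mem_tch {Z : Finset (Sym2 (Fin F))} {x : Fin F} : x ∈ tch Z ↔ ∃ y, s(x, y) ∈ Z := by
  unfold tch
  rw [Finset.mem_filter]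
  exact ⟨fun h => h.2, fun h => ⟨Finset.mem_univ _, h⟩⟩

lemma eq_empty_of_tch {Z : Finset (Sym2 (Fin F))} (h : tch Z = ∅) : Z = ∅ := by
  rw [Finset.eq_empty_iff_forall_notMem]
  intro e he
  induction e using Sym2.ind with
  | _ x y =>
    have hx : x ∈ tch Z := mem_tch.mpr ⟨y, he⟩
    rw [h] at hx
    exact Finset.notMem_empty _ hx

lemma good_empty (hq : 2 ≤ q) (hN : NiceX E c q r) (t : Fin F → Fd d) : Good E c r b ∅ t := by
  intro Z hZ
  have h0 : ∀ x, coef c Z x = 0 := fun x => hZ.2.2 x (Finset.notMem_empty x)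
  have h1 := hN Z hZ.1 hZ.2.1
  rw [Finset.filter_true_of_mem (fun x _ => h0 x)] at h1
  have h2 : (tch Z).card = 0 := by nlinarith
  have h3 : Z = ∅ := eq_empty_of_tch (Finset.card_eq_zero.mp h2)
  rw [h3, Finset.sum_empty]
  apply Finset.sum_eq_zero
  intro x _
  rw [coef_empty, dot_zero_left]

lemma tch_card_le {A : Finset (Fin F)} {Z : Finset (Sym2 (Fin F))} (hZ : ZZ E c r A Z) :
    tch Z ⊆ A ∪ (tch Z).filter (fun x => coef c Z x = 0) := by
  intro x hx
  rw [Finset.mem_union, Finset.mem_filter]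
  by_cases hA : x ∈ A
  · exact Or.inl hA
  · exact Or.inr ⟨hx, hZ.2.2 x hA⟩

lemma zz_symm (hq : 2 ≤ q) (hr : (q + 1) * (k + 1) ≤ (q - 1) * r) (hN : NiceX E c q r)
    {A : Finset (Fin F)} (hA : A.card ≤ k + 1) {Z1 Z2 : Finset (Sym2 (Fin F))}
    (h1 : ZZ E c r A Z1) (h2 : ZZ E c r A Z2) : ZZ E c r A (symmDiff Z1 Z2) := by
  refine ⟨?_, ?_, ?_⟩
  · intro e he
    rw [Finset.mem_symmDiff] at he
    rcases he with he | he
    · exact h1.1 e he.1
    · exact h2.1 e he.1
  · have hsub : tch (symmDiff Z1 Z2) ⊆ A ∪ ((tch Z1).filter (fun x => coef c Z1 x = 0) ∪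
        (tch Z2).filter (fun x => coef c Z2 x = 0)) := by
      intro x hx
      obtain ⟨y, hy⟩ := mem_tch.mp hx
      rw [Finset.mem_symmDiff] at hy
      rw [Finset.mem_union, Finset.mem_union]
      rcases hy with hy | hy
      · have := tch_card_le h1 (mem_tch.mpr ⟨y, hy.1⟩)
        rw [Finset.mem_union] at this
        tauto
      · have := tch_card_le h2 (mem_tch.mpr ⟨y, hy.1⟩)
        rw [Finset.mem_union] at this
        tauto
    have hc := Finset.card_le_card hsub
    have hu1 := Finset.card_union_le A ((tch Z1).filter (fun x => coef c Z1 x = 0) ∪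
        (tch Z2).filter (fun x => coef c Z2 x = 0))
    have hu2 := Finset.card_union_le ((tch Z1).filter (fun x => coef c Z1 x = 0))
        ((tch Z2).filter (fun x => coef c Z2 x = 0))
    have hv1 := (Finset.card_le_card (tch_card_le h1)).trans (Finset.card_union_le _ _)
    have hv2 := (Finset.card_le_card (tch_card_le h2)).trans (Finset.card_union_le _ _)
    have hn1 := hN Z1 h1.1 h1.2.1
    have hn2 := hN Z2 h2.1 h2.2.1
    set m1 := ((tch Z1).filter (fun x => coef c Z1 x = 0)).card
    set m2 := ((tch Z2).filter (fun x => coef c Z2 x = 0)).card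
    obtain ⟨p, rfl⟩ : ∃ p, q = p + 1 := ⟨q - 1, by omega⟩
    rw [Nat.add_sub_cancel] at hr
    have hp : 1 ≤ p := by omega
    have e1 : p * m1 ≤ k + 1 := by nlinarith
    have e2 : p * m2 ≤ k + 1 := by nlinarith
    have e3 : p * (tch (symmDiff Z1 Z2)).card ≤ p * r := by
      have : (tch (symmDiff Z1 Z2)).card ≤ (k + 1) + m1 + m2 := by omega
      calc p * (tch (symmDiff Z1 Z2)).card ≤ p * ((k + 1) + m1 + m2) :=
            Nat.mul_le_mul_left _ this
        _ = p * (k + 1) + p * m1 + p * m2 := by ring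
        _ ≤ p * (k + 1) + (k + 1) + (k + 1) := by omega
        _ = (p + 1 + 1) * (k + 1) := by ring
        _ ≤ p * r := hr
    exact Nat.le_of_mul_le_mul_left e3 hp
  · intro x hx
    rw [coef_symmDiff, h1.2.2 x hx, h2.2.2 x hx, add_zero]

lemma zz_empty (A : Finset (Fin F)) : ZZ E c r A ∅ := by
  refine ⟨fun e he => absurd he (Finset.notMem_empty _), ?_, fun x _ => coef_empty c x⟩
  have : tch (∅ : Finset (Sym2 (Fin F))) = ∅ := by
    rw [Finset.eq_empty_iff_forall_notMem]
    intro x hx
    obtain ⟨y, hy⟩ := mem_tch.mp hx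
    exact Finset.notMem_empty _ hy
  rw [this, Finset.card_empty]
  exact Nat.zero_le _

/-- linear functional on `Fd d` from a subspace which is a graph -/
lemma exists_functional (P : Submodule (ZMod 2) (Fd d × ZMod 2)) (h : ((0 : Fd d), (1 : ZMod 2)) ∉ P) :
    ∃ w : Fd d, ∀ u l, (u, l) ∈ P → dot u w = l := by
  obtain ⟨ψ, hψ, hP⟩ := Submodule.exists_le_ker_of_notMem h
  have h1 : ψ (0, 1) = 1 := by
    have : ∀ a : ZMod 2, a ≠ 0 → a = 1 := by decide
    exact this _ hψ
  refine ⟨fun i => ψ (Pi.single i 1, 0), ?_⟩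
  intro u l hul
  have h2 : ψ (u, l) = 0 := hP hul
  have h3 : ((u, l) : Fd d × ZMod 2) = (∑ i, u i • ((Pi.single i (1 : ZMod 2) : Fd d), (0 : ZMod 2))) + l • ((0 : Fd d), (1 : ZMod 2)) := by
    apply Prod.ext
    · rw [Prod.fst_add, Prod.fst_sum, Prod.smul_fst]
      funext j
      rw [Pi.add_apply, Finset.sum_apply]
      rw [Finset.sum_eq_single j]
      · rw [Prod.smul_fst, Pi.smul_apply, Pi.smul_apply]
        simp
      · intro i _ hij
        rw [Prod.smul_fst, Pi.smul_apply]
        change u i • (Pi.single i (1 : ZMod 2) : Fd d) j = 0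
        rw [Pi.single_eq_of_ne (Ne.symm hij), smul_zero]
      · intro hj
        exact absurd (Finset.mem_univ j) hj
    · rw [Prod.snd_add, Prod.snd_sum, Prod.smul_snd]
      rw [Finset.sum_eq_zero]
      · simp
      · intro i _
        rw [Prod.smul_snd]
        simp
  rw [h3, map_add, map_sum, map_smul, h1] at h2
  have h4 : ∑ i, ψ (u i • ((Pi.single i (1 : ZMod 2) : Fd d), (0 : ZMod 2))) =
      dot u (fun i => ψ (Pi.single i 1, 0)) := by
    unfold dot
    apply Finset.sum_congr rfl
    intro i _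
    rw [map_smul]
    rfl
  rw [h4] at h2
  have h5 : dot u (fun i => ψ (Pi.single i 1, 0)) = dot u (fun i => ψ (Pi.single i 1, 0)) + (l • (1 : ZMod 2)) + l := by
    rw [smul_eq_mul, mul_one, add_assoc, z2_self, add_zero]
  rw [h5, h2, zero_add]

lemma extend (hq : 2 ≤ q) (hr : (q + 1) * (k + 1) ≤ (q - 1) * r) (hN : NiceX E c q r)
    {A : Finset (Fin F)} (hA : A.card ≤ k) {t : Fin F → Fd d} (ht : Good E c r b A t)
    (z : Fin F) (_hz : z ∉ A) :
    ∃ w : Fd d, Good E c r b (insert z A) (Function.update t z w) := by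
  have hA' : (insert z A).card ≤ k + 1 := (Finset.card_insert_le z A).trans (by omega)
  let L : Finset (Sym2 (Fin F)) → ZMod 2 := fun Z =>
    ∑ e ∈ Z, b e + ∑ x ∈ univ.erase z, dot (coef c Z x) (t x)
  have hL : ∀ Z1 Z2, L (symmDiff Z1 Z2) = L Z1 + L Z2 := by
    intro Z1 Z2
    change ∑ e ∈ symmDiff Z1 Z2, b e + ∑ x ∈ univ.erase z, dot (coef c (symmDiff Z1 Z2) x) (t x) =
      (∑ e ∈ Z1, b e + ∑ x ∈ univ.erase z, dot (coef c Z1 x) (t x)) +
      (∑ e ∈ Z2, b e + ∑ x ∈ univ.erase z, dot (coef c Z2 x) (t x))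
    have h : ∑ x ∈ univ.erase z, dot (coef c (symmDiff Z1 Z2) x) (t x) =
        ∑ x ∈ univ.erase z, dot (coef c Z1 x) (t x) +
        ∑ x ∈ univ.erase z, dot (coef c Z2 x) (t x) := by
      rw [← Finset.sum_add_distrib]
      apply Finset.sum_congr rfl
      intro x _
      rw [coef_symmDiff, dot_add_left]
    rw [bsum_symmDiff, h]
    ring
  have hL0 : L ∅ = 0 := by
    have h := hL ∅ ∅
    rw [symmDiff_self] at h
    have h' : L (⊥ : Finset (Sym2 (Fin F))) = L ∅ + L ∅ := h
    rw [z2_self] at h'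
    exact h'
  have hspl : ∀ (Z : Finset (Sym2 (Fin F))) (t' : Fin F → Fd d),
      ∑ x, dot (coef c Z x) (t' x) =
        dot (coef c Z z) (t' z) + ∑ x ∈ univ.erase z, dot (coef c Z x) (t' x) := by
    intro Z t'
    rw [Finset.add_sum_erase univ (fun x => dot (coef c Z x) (t' x)) (Finset.mem_univ z)]
  let P : Submodule (ZMod 2) (Fd d × ZMod 2) :=
    { carrier := {v | ∃ Z, ZZ E c r (insert z A) Z ∧ v = (coef c Z z, L Z)}
      add_mem' := by
        rintro u v ⟨Z1, h1, rfl⟩ ⟨Z2, h2, rfl⟩
        refine ⟨symmDiff Z1 Z2, zz_symm hq hr hN hA' h1 h2, ?_⟩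
        rw [coef_symmDiff, hL]
        rfl
      zero_mem' := by
        refine ⟨∅, zz_empty _, ?_⟩
        rw [coef_empty, hL0]
        rfl
      smul_mem' := by
        rintro a v ⟨Z, h, rfl⟩
        have ha : a = 0 ∨ a = 1 := by
          revert a
          decide
        rcases ha with rfl | rfl
        · refine ⟨∅, zz_empty _, ?_⟩
          rw [coef_empty, hL0, zero_smul]
          rfl
        · exact ⟨Z, h, one_smul _ _⟩ }
  have hP : ((0 : Fd d), (1 : ZMod 2)) ∉ P := by
    rintro ⟨Z, hZ, he⟩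
    have h1 : coef c Z z = 0 := (congrArg Prod.fst he).symm
    have h2 : L Z = 1 := (congrArg Prod.snd he).symm
    have h3 : ZZ E c r A Z := by
      refine ⟨hZ.1, hZ.2.1, ?_⟩
      intro x hx
      by_cases hxz : x = z
      · rw [hxz]
        exact h1
      · apply hZ.2.2
        rw [Finset.mem_insert]
        tauto
    have h4 := ht Z h3
    rw [hspl Z t, h1, dot_zero_left, zero_add] at h4
    have h5 : L Z = 0 := by
      change ∑ e ∈ Z, b e + ∑ x ∈ univ.erase z, dot (coef c Z x) (t x) = 0
      rw [h4, z2_self]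
    rw [h5] at h2
    exact absurd h2 (by decide)
  obtain ⟨w, hw⟩ := exists_functional P hP
  refine ⟨w, ?_⟩
  intro Z hZ
  have h1 := hw (coef c Z z) (L Z) ⟨Z, hZ, rfl⟩
  rw [hspl Z (Function.update t z w), Function.update_self, h1]
  have h2 : ∑ x ∈ univ.erase z, dot (coef c Z x) (Function.update t z w x) =
      ∑ x ∈ univ.erase z, dot (coef c Z x) (t x) := by
    apply Finset.sum_congr rfl
    intro x hx
    rw [Function.update_of_ne (Finset.ne_of_mem_erase hx)]
  rw [h2]
  change (∑ e ∈ Z, b e + ∑ x ∈ univ.erase z, dot (coef c Z x) (t x)) +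
    ∑ x ∈ univ.erase z, dot (coef c Z x) (t x) = ∑ e ∈ Z, b e
  rw [add_assoc, z2_self, add_zero]

/-- a single equation -/
lemma good_edge {A : Finset (Fin F)} {t : Fin F → Fd d} (ht : Good E c r b A t) (hr : 2 ≤ r)
    {x y : Fin F} (hx : x ∈ A) (hy : y ∈ A) (hxy : E.Adj x y) :
    dot (c x y) (t x) + dot (c y x) (t y) = b s(x, y) := by
  have hne : x ≠ y := hxy.ne
  have hc : ∀ x', coef c {s(x, y)} x' = if x' = x then c x y else if x' = y then c y x else 0 := by
    intro x'
    unfold coef
    by_cases h1 : x' = x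
    · rw [if_pos h1, Finset.sum_eq_single y]
      · rw [if_pos (by rw [h1]; exact Finset.mem_singleton_self _), h1]
      · intro y' _ hy'
        apply if_neg
        rw [Finset.mem_singleton, h1, Sym2.eq_iff]
        rintro (⟨_, h⟩ | ⟨h, _⟩)
        · exact hy' h
        · exact hne h
      · intro h
        exact absurd (Finset.mem_univ y) h
    · rw [if_neg h1]
      by_cases h2 : x' = y
      · rw [if_pos h2, Finset.sum_eq_single x]
        · rw [if_pos (by rw [h2, Sym2.eq_swap]; exact Finset.mem_singleton_self _), h2]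
        · intro y' _ hy'
          apply if_neg
          rw [Finset.mem_singleton, h2, Sym2.eq_iff]
          rintro (⟨h, _⟩ | ⟨_, h⟩)
          · exact hne h.symm
          · exact hy' h
        · intro h
          exact absurd (Finset.mem_univ x) h
      · rw [if_neg h2]
        apply Finset.sum_eq_zero
        intro y' _
        apply if_neg
        rw [Finset.mem_singleton, Sym2.eq_iff]
        rintro (⟨h, _⟩ | ⟨h, _⟩)
        · exact h1 h
        · exact h2 h
  have hZ : ZZ E c r A {s(x, y)} := by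
    refine ⟨?_, ?_, ?_⟩
    · intro e he
      rw [Finset.mem_singleton] at he
      rw [he, SimpleGraph.mem_edgeSet]
      exact hxy
    · have hsub : tch {s(x, y)} ⊆ ({x, y} : Finset (Fin F)) := by
        intro x' hx'
        obtain ⟨y', hy'⟩ := mem_tch.mp hx'
        rw [Finset.mem_singleton, Sym2.eq_iff] at hy'
        rw [Finset.mem_insert, Finset.mem_singleton]
        rcases hy' with h | h
        · exact Or.inl h.1
        · exact Or.inr h.1
      exact ((Finset.card_le_card hsub).trans Finset.card_le_two).trans hr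
    · intro x' hx'
      rw [hc, if_neg, if_neg]
      · rintro rfl
        exact hx' hy
      · rintro rfl
        exact hx' hx
  have h := ht _ hZ
  rw [Finset.sum_singleton] at h
  rw [← h]
  have h2 : ∑ x', dot (coef c {s(x, y)} x') (t x') = ∑ x' ∈ ({x, y} : Finset (Fin F)),
      dot (coef c {s(x, y)} x') (t x') := by
    symm
    apply Finset.sum_subset (Finset.subset_univ _)
    intro x' _ hx'
    rw [Finset.mem_insert, Finset.mem_singleton, not_or] at hx'
    rw [hc, if_neg hx'.1, if_neg hx'.2, dot_zero_left]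
  rw [h2, Finset.sum_pair hne, hc, hc, if_pos rfl, if_neg hne.symm, if_pos rfl]

end lin

open Classical in
/-- the variables of a position -/
noncomputable def vars {F d : ℕ} (p : Set (VX F d × VX F d)) : Finset (Fin F) :=
  univ.filter fun x => ∃ e ∈ p, e.1.1 = x

lemma mem_vars {F d : ℕ} {p : Set (VX F d × VX F d)} {x : Fin F} :
    x ∈ vars p ↔ ∃ e ∈ p, e.1.1 = x := by
  classical
  unfold vars
  rw [Finset.mem_filter]
  exact ⟨fun h => h.2, fun h => ⟨Finset.mem_univ _, h⟩⟩

lemma vars_card_le {F d : ℕ} (p : Set (VX F d × VX F d)) : (vars p).card ≤ p.ncard := by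
  have h1 : ((vars p : Finset (Fin F)) : Set (Fin F)) = (fun e : VX F d × VX F d => e.1.1) '' p := by
    ext x
    rw [Finset.mem_coe, mem_vars]
    rfl
  rw [← Set.ncard_coe_finset, h1]
  exact Set.ncard_image_le p.toFinite

theorem t_GAME : S_GAME := by
  intro F d q r k E c hq hr hN s s'
  have hr2 : 2 ≤ r := by
    by_contra h
    have h1 : r ≤ 1 := by omega
    have h2 : (q - 1) * r ≤ (q - 1) * 1 := Nat.mul_le_mul_left _ h1
    have h3 : q + 1 ≤ (q + 1) * (k + 1) := Nat.le_mul_of_pos_right _ (Nat.succ_pos k)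
    omega
  let b : Sym2 (Fin F) → ZMod 2 := fun e => s e + s' e
  refine ⟨fun p => p.ncard ≤ k + 1 ∧ ∃ t : Fin F → Fd d,
    (∀ e ∈ p, e.2 = (e.1.1, e.1.2 + t e.1.1)) ∧ Good E c r b (vars p) t, ?_, ?_, ?_, ?_⟩
  · refine ⟨by rw [Set.ncard_empty]; exact Nat.zero_le _, fun _ => 0, ?_, ?_⟩
    · intro e he
      exact absurd he (Set.notMem_empty e)
    · have : vars (∅ : Set (VX F d × VX F d)) = ∅ := by
        rw [Finset.eq_empty_iff_forall_notMem]
        intro x hx
        obtain ⟨e, he, _⟩ := mem_vars.mp hx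
        exact Set.notMem_empty e he
      rw [this]
      exact good_empty hq hN _
  · rintro p p' hsub ⟨hc, t, h1, h2⟩
    refine ⟨(Set.ncard_le_ncard hsub p.toFinite).trans hc, t, fun e he => h1 e (hsub he), ?_⟩
    apply h2.mono
    intro x hx
    obtain ⟨e, he, hex⟩ := mem_vars.mp hx
    exact mem_vars.mpr ⟨e, hsub he, hex⟩
  · rintro p ⟨hc, t, h1, h2⟩ e he e' he'
    obtain ⟨⟨x, a⟩, u⟩ := e
    obtain ⟨⟨y, a'⟩, v⟩ := e'
    have hu : u = (x, a + t x) := h1 _ he
    have hv : v = (y, a' + t y) := h1 _ he'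
    subst hu hv
    constructor
    · constructor
      · intro h
        have hx : x = y := congrArg Prod.fst h
        have ha : a = a' := congrArg Prod.snd h
        subst hx ha
        rfl
      · intro h
        have hx : x = y := congrArg Prod.fst h
        subst hx
        have ha : a + t x = a' + t x := congrArg Prod.snd h
        have ha' : a = a' := add_right_cancel ha
        subst ha'
        rfl
    · change (E.Adj x y ∧ dot (c x y) a + dot (c y x) a' = s s(x, y)) ↔
        (E.Adj x y ∧ dot (c x y) (a + t x) + dot (c y x) (a' + t y) = s' s(x, y))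
      apply and_congr_right
      intro hxy
      have h := good_edge h2 hr2 (mem_vars.mpr ⟨_, he, rfl⟩) (mem_vars.mpr ⟨_, he', rfl⟩) hxy
      change dot (c x y) (t x) + dot (c y x) (t y) = s s(x, y) + s' s(x, y) at h
      have h3 : dot (c x y) (a + t x) + dot (c y x) (a' + t y) =
          (dot (c x y) a + dot (c y x) a') + (s s(x, y) + s' s(x, y)) := by
        rw [dot_add_right, dot_add_right, ← h]
        ring
      rw [h3]
      generalize dot (c x y) a + dot (c y x) a' = α
      generalize s s(x, y) = β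
      generalize s' s(x, y) = γ
      revert α β γ
      decide
  · rintro p ⟨hc, t, h1, h2⟩ hlt
    have hA : (vars p).card ≤ k := (vars_card_le p).trans (by omega)
    have hw : ∀ z : Fin F, ∃ w : Fd d, (z ∈ vars p → w = t z) ∧
        Good E c r b (insert z (vars p)) (Function.update t z w) := by
      intro z
      by_cases hz : z ∈ vars p
      · refine ⟨t z, fun _ => rfl, ?_⟩
        rw [Function.update_eq_self, Finset.insert_eq_of_mem hz]
        exact h2
      · obtain ⟨w, hw⟩ := extend hq hr hN hA h2 z hz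
        exact ⟨w, fun h => absurd h hz, hw⟩
    choose w hw1 hw2 using hw
    have hinv : Function.Involutive (fun u : VX F d => ((u.1, u.2 + w u.1) : VX F d)) := by
      rintro ⟨z, a⟩
      change ((z, a + w z + w z) : VX F d) = (z, a)
      rw [add_assoc, fd_self, add_zero]
    refine ⟨hinv.toPerm _, ?_⟩
    rintro ⟨z, a⟩
    have hf : (hinv.toPerm _) ((z, a) : VX F d) = ((z, a + w z) : VX F d) := rfl
    rw [hf]
    refine ⟨(Set.ncard_insert_le _ _).trans (by omega), Function.update t z (w z), ?_, ?_⟩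
    · intro e he
      rcases Set.mem_insert_iff.mp he with he | he
      · rw [he]
        change ((z, a + w z) : VX F d) = (z, a + Function.update t z (w z) z)
        rw [Function.update_self]
      · by_cases hez : e.1.1 = z
        · have hz : z ∈ vars p := mem_vars.mpr ⟨e, he, hez⟩
          rw [hw1 z hz, Function.update_eq_self]
          exact h1 e he
        · rw [Function.update_of_ne hez]
          exact h1 e he
    · have hv : vars (insert (((z, a) : VX F d), ((z, a + w z) : VX F d)) p) = insert z (vars p) := by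
        ext x
        rw [mem_vars, Finset.mem_insert, mem_vars]
        constructor
        · rintro ⟨e, he, hex⟩
          rcases Set.mem_insert_iff.mp he with he | he
          · left
            rw [← hex, he]
          · right
            exact ⟨e, he, hex⟩
        · rintro (hx | ⟨e, he, hex⟩)
          · exact ⟨_, Set.mem_insert _ _, hx.symm⟩
          · exact ⟨e, Set.mem_insert_of_mem _ he, hex⟩
      rw [hv]
      exact hw2 z

end Pool.Agent.H115.ED
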