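import Pool.Agent.H293.EXN.Stm5

/-! The convolution identity with complex coefficients (helper115 for helper293), after `Pool/Agent/H115/EX_CVG.lean`. -/

set_option autoImplicit false

namespace Pool.Agent.H115.EXCVC

open MeasureTheory Filter Topology Set Complex
open Pool.Agent.H293.EX

variable {κ : Type} {b : κ → ℂ} {l : κ → ℝ}

/-- the majorant -/
noncomputable def mj (b : κ → ℂ) (l : κ → ℝ) (k : κ) : ℝ := ‖b k‖ * Real.exp (-(1 * l k))

theorem mj_nonneg (b : κ → ℂ) (l : κ → ℝ) (k : κ) : 0 ≤ mj b l k :=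
  mul_nonneg (norm_nonneg _) (Real.exp_pos _).le

/-- `‖b_k‖ e^{-|u - w - l_k|} ≤ mj k e^u e^{-w}` -/
theorem term_le (b : κ → ℂ) (l : κ → ℝ) (k : κ) (u w : ℝ) :
    ‖b k * ((Real.exp (-|u - w - l k|) : ℝ) : ℂ)‖ ≤ mj b l k * (Real.exp u * Real.exp (-w)) := by
  have h1 : Real.exp (-|u - w - l k|) ≤ Real.exp (u - w - l k) := by
    apply Real.exp_le_exp.2
    have := neg_abs_le (u - w - l k)
    exact this
  rw [norm_mul, Complex.norm_real, Real.norm_eq_abs, abs_of_pos (Real.exp_pos _)]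
  calc ‖b k‖ * Real.exp (-|u - w - l k|)
      ≤ ‖b k‖ * Real.exp (u - w - l k) :=
        mul_le_mul_of_nonneg_left h1 (norm_nonneg _)
    _ = mj b l k * (Real.exp u * Real.exp (-w)) := by
        unfold mj
        rw [mul_assoc, ← Real.exp_add, ← Real.exp_add]
        congr 2
        ring

theorem sum_summable (h : Summable (mj b l)) (u w : ℝ) :
    Summable (fun k : κ => b k * ((Real.exp (-|u - w - l k|) : ℝ) : ℂ)) :=
  Summable.of_norm_bounded (h.mul_right _) (fun k => term_le b l k u w)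

theorem kap_cont (a : ℝ) : Continuous (kap a) := by
  unfold kap
  fun_prop

/-- `|κ| e^{-w}` is integrable -/
theorem int1 (h2 : S_KI) {a : ℝ} (ha : 0 < a) :
    IntegrableOn (fun w : ℝ => |kap a w| * Real.exp (-w)) (Ioi 0) := by
  have h : IntegrableOn (fun w : ℝ => ‖kap a w * Real.exp (-|0 - w|)‖) (Ioi 0) :=
    (h2 a 0 ha).1.norm
  refine IntegrableOn.congr_fun h (fun w hw => ?_) measurableSet_Ioi
  have hw' : 0 < w := hw
  simp only [norm_mul, Real.norm_eq_abs]
  rw [abs_of_pos (Real.exp_pos _), zero_sub, abs_neg, abs_of_pos hw']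

/-- the terms -/
noncomputable def fn (b : κ → ℂ) (l : κ → ℝ) (a u : ℝ) (k : κ) (w : ℝ) : ℂ :=
  b k * ((kap a w * Real.exp (-|u - l k - w|) : ℝ) : ℂ)

theorem fn_int (h2 : S_KI) (b : κ → ℂ) (l : κ → ℝ) {a : ℝ} (ha : 0 < a) (u : ℝ) (k : κ) :
    IntegrableOn (fn b l a u k) (Ioi 0) :=
  ((h2 a (u - l k) ha).1.ofReal).const_mul _

theorem fn_val (h2 : S_KI) (b : κ → ℂ) (l : κ → ℝ) {a : ℝ} (ha : 0 < a) (u : ℝ) (k : κ) :
    ∫ w in Ioi (0 : ℝ), fn b l a u k w =
      b k * ((max (u - l k) 0 * Real.exp (-(a * (u - l k))) : ℝ) : ℂ) +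
      1 / 2 * (b k * ((Real.exp (-|u - l k|) : ℝ) : ℂ)) := by
  unfold fn
  rw [integral_const_mul, integral_complex_ofReal]
  have h := (h2 a (u - l k) ha).2
  rw [h]
  push_cast
  ring

theorem fn_norm (h2 : S_KI) (b : κ → ℂ) (l : κ → ℝ) {a : ℝ} (ha : 0 < a) (u : ℝ) (k : κ) :
    ∫ w in Ioi (0 : ℝ), ‖fn b l a u k w‖ ≤
      mj b l k * (Real.exp u * ∫ w in Ioi (0 : ℝ), |kap a w| * Real.exp (-w)) := by
  rw [← integral_const_mul, ← integral_const_mul]
  refine integral_mono_of_nonneg (Filter.Eventually.of_forall fun w => norm_nonneg _)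
    (((int1 h2 ha).const_mul _).const_mul _) (Filter.Eventually.of_forall fun w => ?_)
  have h := term_le b l k u w
  rw [norm_mul, Complex.norm_real, Real.norm_eq_abs, abs_of_pos (Real.exp_pos _)] at h
  simp only
  unfold fn
  rw [norm_mul, Complex.norm_real, norm_mul, Real.norm_eq_abs, Real.norm_eq_abs,
    abs_of_pos (Real.exp_pos _)]
  have e : u - l k - w = u - w - l k := by ring
  rw [e]
  calc ‖b k‖ * (|kap a w| * Real.exp (-|u - w - l k|)) =
      |kap a w| * (‖b k‖ * Real.exp (-|u - w - l k|)) := by ring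
    _ ≤ |kap a w| * (mj b l k * (Real.exp u * Real.exp (-w))) :=
        mul_le_mul_of_nonneg_left h (abs_nonneg _)
    _ = mj b l k * (Real.exp u * (|kap a w| * Real.exp (-w))) := by ring

theorem fn_tsum (b : κ → ℂ) (l : κ → ℝ) (a u w : ℝ) : ∑' k : κ, fn b l a u k w =
    (kap a w : ℂ) * ∑' k : κ, b k * ((Real.exp (-|u - w - l k|) : ℝ) : ℂ) := by
  rw [← tsum_mul_left]
  refine tsum_congr fun k => ?_
  unfold fn
  have e : u - l k - w = u - w - l k := by ring
  rw [e, Complex.ofReal_mul]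
  ring

/-- the sum part -/
theorem sum_part [Countable κ] (h2 : S_KI) (hG : Summable (mj b l)) {a : ℝ} (ha : 0 < a) (u : ℝ) :
    HasSum (fun k : κ => b k * ((max (u - l k) 0 * Real.exp (-(a * (u - l k))) : ℝ) : ℂ) +
      1 / 2 * (b k * ((Real.exp (-|u - l k|) : ℝ) : ℂ)))
      (∫ w in Ioi (0 : ℝ), (kap a w : ℂ) *
        ∑' k : κ, b k * ((Real.exp (-|u - w - l k|) : ℝ) : ℂ)) := by
  have hs : Summable fun k : κ => ∫ w in Ioi (0 : ℝ), ‖fn b l a u k w‖ :=
    Summable.of_nonneg_of_le (fun k => integral_nonneg fun w => norm_nonneg _)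
      (fun k => fn_norm h2 b l ha u k) (hG.mul_right _)
  have h := hasSum_integral_of_summable_integral_norm (fun k => fn_int h2 b l ha u k) hs
  simp_rw [fn_val h2 b l ha u, fn_tsum] at h
  exact h

theorem sum0_summable (hG : Summable (mj b l)) (u : ℝ) :
    Summable (fun k : κ => b k * ((Real.exp (-|u - l k|) : ℝ) : ℂ)) := by
  have h := sum_summable hG u 0
  simpa using h

/-- `κ` times the sum is integrable -/
theorem sum_int (h2 : S_KI) (hG : Summable (mj b l)) {a : ℝ} (ha : 0 < a) (u : ℝ) :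
    IntegrableOn (fun w : ℝ => (kap a w : ℂ) *
      (∑' k : κ, b k * ((Real.exp (-|u - w - l k|) : ℝ) : ℂ))) (Ioi 0) := by
  have hcont : ContinuousOn
      (fun w : ℝ => ∑' k : κ, b k * ((Real.exp (-|u - w - l k|) : ℝ) : ℂ)) (Ioi 0) := by
    refine continuousOn_tsum (u := fun k => mj b l k * Real.exp u) (fun k => ?_)
      (hG.mul_right _) (fun k w hw => ?_)
    · refine Continuous.continuousOn ?_
      exact continuous_const.mul (Complex.continuous_ofReal.comp (by fun_prop))
    · have hw' : 0 < w := hw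
      refine (term_le b l k u w).trans ?_
      refine mul_le_mul_of_nonneg_left ?_ (mj_nonneg b l k)
      have h3 : Real.exp (-w) ≤ 1 := Real.exp_le_one_iff.2 (by linarith)
      have h4 := Real.exp_pos u
      nlinarith
  have hb : Integrable (fun w : ℝ => ((∑' k, mj b l k) * Real.exp u) *
      (|kap a w| * Real.exp (-w))) (volume.restrict (Ioi 0)) := (int1 h2 ha).const_mul _
  refine hb.mono' (((Complex.continuous_ofReal.comp (kap_cont a)).continuousOn.mul
    hcont).aestronglyMeasurable measurableSet_Ioi) ?_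
  refine Filter.Eventually.of_forall fun w => ?_
  have h1 : ‖∑' k : κ, b k * ((Real.exp (-|u - w - l k|) : ℝ) : ℂ)‖ ≤
      (∑' k, mj b l k) * (Real.exp u * Real.exp (-w)) := by
    rw [← tsum_mul_right]
    exact tsum_of_norm_bounded (hG.mul_right _).hasSum (fun k => term_le b l k u w)
  rw [norm_mul, Complex.norm_real, Real.norm_eq_abs]
  calc |kap a w| * ‖∑' k : κ, b k * ((Real.exp (-|u - w - l k|) : ℝ) : ℂ)‖
      ≤ |kap a w| * ((∑' k, mj b l k) * (Real.exp u * Real.exp (-w))) :=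
        mul_le_mul_of_nonneg_left h1 (abs_nonneg _)
    _ = ((∑' k, mj b l k) * Real.exp u) * (|kap a w| * Real.exp (-w)) := by
        ring

theorem t_CVC' (h2 : S_KI) : S_CVC := by
  intro κ _ b l _ hsum a ha u
  have hG : Summable (mj b l) := hsum 1 (by norm_num)
  refine ⟨sum_int h2 hG ha u, ?_⟩
  have hs := sum_part h2 hG ha u
  have hs0 := sum0_summable hG u
  have hM : Summable (fun k : κ =>
      b k * ((max (u - l k) 0 * Real.exp (-(a * (u - l k))) : ℝ) : ℂ)) := by
    have h3 := hs.summable.sub (hs0.mul_left (1 / 2))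
    refine h3.congr fun k => ?_
    ring
  have h4 := hs.tsum_eq
  rw [hM.tsum_add (hs0.mul_left (1 / 2)), tsum_mul_left] at h4
  rw [← h4]
  ring

theorem t_CVC (_h1 : S_KE) (h2 : S_KI) : S_CVC := t_CVC' h2

end Pool.Agent.H115.EXCVC
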