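import Pool.Agent.H293.EX.Stm3

/-! The convolution identity for general index sets (helper115 for helper293), after `Pool/Agent/H178/EX_CV.lean`. -/

set_option autoImplicit false

namespace Pool.Agent.H115.EXCVG

open MeasureTheory Filter Topology Set Complex
open Pool.Agent.H293.EX
open Pool.Agent.Q253.LQ Pool.Agent.Q14.LQ

variable {κ : Type} {b l : κ → ℝ}

/-- the majorant -/
noncomputable def mj (b l : κ → ℝ) (k : κ) : ℝ := b k * Real.exp (-(1 * l k))

theorem mj_summable (h : HG b l) : Summable (mj b l) := h.2.2 1 (by norm_num)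

/-- `b_k e^{-|u - w - l_k|} ≤ mj k e^u e^{-w}` -/
theorem term_le (h : HG b l) (k : κ) (u w : ℝ) :
    b k * Real.exp (-|u - w - l k|) ≤ mj b l k * (Real.exp u * Real.exp (-w)) := by
  have h1 : Real.exp (-|u - w - l k|) ≤ Real.exp (u - w - l k) := by
    apply Real.exp_le_exp.2
    have := neg_abs_le (u - w - l k)
    exact this
  calc b k * Real.exp (-|u - w - l k|)
      ≤ b k * Real.exp (u - w - l k) :=
        mul_le_mul_of_nonneg_left h1 (h.1 k)
    _ = mj b l k * (Real.exp u * Real.exp (-w)) := by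
        unfold mj
        rw [mul_assoc, ← Real.exp_add, ← Real.exp_add]
        congr 2
        ring

theorem sum_summable (h : HG b l) (u w : ℝ) :
    Summable (fun k : κ => b k * Real.exp (-|u - w - l k|)) := by
  refine Summable.of_nonneg_of_le
    (fun k => mul_nonneg (h.1 k) (Real.exp_pos _).le) (fun k => term_le h k u w)
    ((mj_summable h).mul_right _)

theorem kap_cont (a : ℝ) : Continuous (kap a) := by
  unfold kap
  fun_prop

/-- `|κ| e^{-w}` is integrable -/
theorem int1 (h2 : S_KI) {a : ℝ} (ha : 0 < a) :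
    IntegrableOn (fun w : ℝ => |kap a w| * Real.exp (-w)) (Ioi 0) := by
  have h : IntegrableOn (fun w : ℝ => ‖kap a w * Real.exp (-|0 - w|)‖) (Ioi 0) :=
    (h2 a 0 ha).1.norm
  refine IntegrableOn.congr_fun h (fun w hw => ?_) measurableSet_Ioi
  have hw' : 0 < w := hw
  simp only [norm_mul, Real.norm_eq_abs]
  rw [abs_of_pos (Real.exp_pos _), zero_sub, abs_neg, abs_of_pos hw']

theorem norm_kap_cexp (a w : ℝ) :
    ‖(kap a w : ℂ) * cexp (-((1 / 2 : ℂ) * w))‖ = |kap a w| * Real.exp (-(w / 2)) := by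
  rw [norm_mul, Complex.norm_real, Real.norm_eq_abs, Complex.norm_exp]
  congr 2
  have : (-((1 / 2 : ℂ) * w)) = ((-(w / 2) : ℝ) : ℂ) := by push_cast; ring
  rw [this, Complex.ofReal_re]

theorem int2 (h1 : S_KE) {a : ℝ} (ha : 0 < a) :
    IntegrableOn (fun w : ℝ => |kap a w| * Real.exp (-(w / 2))) (Ioi 0) := by
  have h : IntegrableOn (fun w : ℝ => ‖(kap a w : ℂ) * cexp (-((1 / 2 : ℂ) * w))‖) (Ioi 0) :=
    (h1 a (1 / 2) ha (by
    have : ((1 / 2 : ℂ)).re = 1 / 2 := by norm_num
    rw [this]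
    linarith)).1.norm
  refine IntegrableOn.congr_fun h (fun w _ => ?_) measurableSet_Ioi
  exact norm_kap_cexp a w

theorem int3 (h1 : S_KE) {a : ℝ} (ha : 0 < a) :
    IntegrableOn (fun w : ℝ => kap a w * Real.exp (-(w / 2))) (Ioi 0) := by
  refine (int2 h1 ha).mono' ?_ ?_
  · refine Continuous.aestronglyMeasurable ?_
    exact (kap_cont a).mul (by fun_prop)
  · refine Filter.Eventually.of_forall fun w => ?_
    rw [norm_mul, Real.norm_eq_abs, Real.norm_eq_abs, abs_of_pos (Real.exp_pos _)]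

theorem val3 (h1 : S_KE) {a : ℝ} (ha : 0 < a) :
    ∫ w in Ioi (0 : ℝ), kap a w * Real.exp (-(w / 2)) =
      a / (a + 1 / 2) - (a ^ 2 - 1) / 2 / (a + 1 / 2) ^ 2 := by
  have h := (h1 a (1 / 2) ha (by
    have : ((1 / 2 : ℂ)).re = 1 / 2 := by norm_num
    rw [this]
    linarith)).2
  have e : ∫ w in Ioi (0 : ℝ), (kap a w : ℂ) * cexp (-((1 / 2 : ℂ) * w)) =
      ((∫ w in Ioi (0 : ℝ), kap a w * Real.exp (-(w / 2)) : ℝ) : ℂ) := by
    rw [← integral_complex_ofReal]
    refine integral_congr_ae (Filter.Eventually.of_forall fun w => ?_)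
    simp only
    push_cast
    congr 2
    ring
  rw [e] at h
  apply Complex.ofReal_injective
  rw [h]
  push_cast
  ring

/-- the terms -/
noncomputable def fn (b l : κ → ℝ) (a u : ℝ) (k : κ) (w : ℝ) : ℝ :=
  b k * (kap a w * Real.exp (-|u - l k - w|))

theorem fn_int (h2 : S_KI) (b l : κ → ℝ) {a : ℝ} (ha : 0 < a) (u : ℝ) (k : κ) :
    IntegrableOn (fn b l a u k) (Ioi 0) :=
  (h2 a (u - l k) ha).1.const_mul _

theorem fn_val (h2 : S_KI) (b l : κ → ℝ) {a : ℝ} (ha : 0 < a) (u : ℝ) (k : κ) :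
    ∫ w in Ioi (0 : ℝ), fn b l a u k w =
      b k * (max (u - l k) 0 * Real.exp (-(a * (u - l k)))) +
      1 / 2 * (b k * Real.exp (-|u - l k|)) := by
  unfold fn
  rw [integral_const_mul]
  have h := (h2 a (u - l k) ha).2
  linear_combination -(b k) * h

theorem fn_norm (h2 : S_KI) (hG : HG b l) {a : ℝ} (ha : 0 < a) (u : ℝ) (k : κ) :
    ∫ w in Ioi (0 : ℝ), ‖fn b l a u k w‖ ≤
      mj b l k * (Real.exp u * ∫ w in Ioi (0 : ℝ), |kap a w| * Real.exp (-w)) := by
  rw [← integral_const_mul, ← integral_const_mul]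
  refine integral_mono_of_nonneg (Filter.Eventually.of_forall fun w => norm_nonneg _)
    (((int1 h2 ha).const_mul _).const_mul _) (Filter.Eventually.of_forall fun w => ?_)
  simp only
  unfold fn
  rw [norm_mul, norm_mul, Real.norm_eq_abs, Real.norm_eq_abs, Real.norm_eq_abs,
    abs_of_nonneg (hG.1 k), abs_of_pos (Real.exp_pos _)]
  have h := term_le hG k u w
  have e : u - l k - w = u - w - l k := by ring
  rw [e]
  calc b k * (|kap a w| * Real.exp (-|u - w - l k|)) =
      |kap a w| * (b k * Real.exp (-|u - w - l k|)) := by ring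
    _ ≤ |kap a w| * (mj b l k * (Real.exp u * Real.exp (-w))) :=
        mul_le_mul_of_nonneg_left h (abs_nonneg _)
    _ = mj b l k * (Real.exp u * (|kap a w| * Real.exp (-w))) := by ring

theorem fn_tsum (b l : κ → ℝ) (a u w : ℝ) : ∑' k : κ, fn b l a u k w =
    kap a w * ∑' k : κ, b k * Real.exp (-|u - w - l k|) := by
  rw [← tsum_mul_left]
  refine tsum_congr fun k => ?_
  unfold fn
  have e : u - l k - w = u - w - l k := by ring
  rw [e]
  ring

/-- the sum part -/
theorem sum_part [Countable κ] (h2 : S_KI) (hG : HG b l) {a : ℝ} (ha : 0 < a) (u : ℝ) :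
    HasSum (fun k : κ => b k * (max (u - l k) 0 * Real.exp (-(a * (u - l k)))) +
      1 / 2 * (b k * Real.exp (-|u - l k|)))
      (∫ w in Ioi (0 : ℝ), kap a w * ∑' k : κ, b k * Real.exp (-|u - w - l k|)) := by
  have hs : Summable fun k : κ => ∫ w in Ioi (0 : ℝ), ‖fn b l a u k w‖ :=
    Summable.of_nonneg_of_le (fun k => integral_nonneg fun w => norm_nonneg _)
      (fun k => fn_norm h2 hG ha u k) ((mj_summable hG).mul_right _)
  have h := hasSum_integral_of_summable_integral_norm (fun k => fn_int h2 b l ha u k) hs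
  simp_rw [fn_val h2 b l ha u, fn_tsum] at h
  exact h

theorem sum0_summable (hG : HG b l) (u : ℝ) :
    Summable (fun k : κ => b k * Real.exp (-|u - l k|)) := by
  have h := sum_summable hG u 0
  simpa using h

/-- `κ` times the sum is integrable -/
theorem sum_int (h2 : S_KI) (hG : HG b l) {a : ℝ} (ha : 0 < a) (u : ℝ) :
    IntegrableOn (fun w : ℝ => kap a w *
      (∑' k : κ, b k * Real.exp (-|u - w - l k|))) (Ioi 0) := by
  have hcont : ContinuousOn (fun w : ℝ => ∑' k : κ, b k * Real.exp (-|u - w - l k|)) (Ioi 0) := by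
    refine continuousOn_tsum (u := fun k => mj b l k * Real.exp u) (fun k => ?_)
      ((mj_summable hG).mul_right _) (fun k w hw => ?_)
    · refine Continuous.continuousOn ?_
      fun_prop
    · have hw' : 0 < w := hw
      have h0 : 0 ≤ b k * Real.exp (-|u - w - l k|) := mul_nonneg (hG.1 k) (Real.exp_pos _).le
      rw [Real.norm_eq_abs, abs_of_nonneg h0]
      refine (term_le hG k u w).trans ?_
      have hm : 0 ≤ mj b l k := mul_nonneg (hG.1 k) (Real.exp_pos _).le
      refine mul_le_mul_of_nonneg_left ?_ hm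
      have h3 : Real.exp (-w) ≤ 1 := Real.exp_le_one_iff.2 (by linarith)
      have h4 := Real.exp_pos u
      nlinarith
  have hb : Integrable (fun w : ℝ => ((∑' k, mj b l k) * Real.exp u) *
      (|kap a w| * Real.exp (-w))) (volume.restrict (Ioi 0)) := (int1 h2 ha).const_mul _
  refine hb.mono' (((kap_cont a).continuousOn.mul hcont).aestronglyMeasurable
    measurableSet_Ioi) ?_
  refine Filter.Eventually.of_forall fun w => ?_
  have h1 : ∑' k : κ, b k * Real.exp (-|u - w - l k|) ≤
      (∑' k, mj b l k) * (Real.exp u * Real.exp (-w)) := by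
    rw [← tsum_mul_right]
    exact Summable.tsum_le_tsum (fun k => term_le hG k u w) (sum_summable hG u w)
      ((mj_summable hG).mul_right _)
  have h0 : 0 ≤ ∑' k : κ, b k * Real.exp (-|u - w - l k|) :=
    tsum_nonneg fun k => mul_nonneg (hG.1 k) (Real.exp_pos _).le
  rw [norm_mul, Real.norm_eq_abs, Real.norm_eq_abs, abs_of_nonneg h0]
  calc |kap a w| * (∑' k : κ, b k * Real.exp (-|u - w - l k|))
      ≤ |kap a w| * ((∑' k, mj b l k) * (Real.exp u * Real.exp (-w))) :=
        mul_le_mul_of_nonneg_left h1 (abs_nonneg _)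
    _ = ((∑' k, mj b l k) * Real.exp u) * (|kap a w| * Real.exp (-w)) := by
        ring

theorem t_CVG (h1 : S_KE) (h2 : S_KI) : S_CVG := by
  intro κ _ b l hG a ha u
  have hI1 := sum_int h2 hG ha u
  have hI2 : IntegrableOn (fun w : ℝ => (8 / 3 * Real.exp (u / 2)) *
      (kap a w * Real.exp (-(w / 2)))) (Ioi 0) := (int3 h1 ha).const_mul _
  have e : ∀ w : ℝ, kap a w * PG b l (u - w) =
      kap a w * (∑' k : κ, b k * Real.exp (-|u - w - l k|)) -
      (8 / 3 * Real.exp (u / 2)) * (kap a w * Real.exp (-(w / 2))) := by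
    intro w
    unfold PG
    have e2 : Real.exp ((u - w) / 2) = Real.exp (u / 2) * Real.exp (-(w / 2)) := by
      rw [← Real.exp_add]
      congr 1
      ring
    rw [e2]
    ring
  have e' : (fun w : ℝ => kap a w * PG b l (u - w)) = fun w =>
      kap a w * (∑' k : κ, b k * Real.exp (-|u - w - l k|)) -
      (8 / 3 * Real.exp (u / 2)) * (kap a w * Real.exp (-(w / 2))) := funext e
  rw [e']
  refine ⟨hI1.sub hI2, ?_⟩
  rw [integral_sub hI1 hI2, integral_const_mul, val3 h1 ha]
  have hs := sum_part h2 hG ha u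
  have hs0 := sum0_summable hG u
  have hM : Summable (fun k : κ =>
      b k * (max (u - l k) 0 * Real.exp (-(a * (u - l k))))) := by
    have h3 := hs.summable.sub (hs0.mul_left (1 / 2))
    refine h3.congr fun k => ?_
    ring
  have h4 := hs.tsum_eq
  rw [hM.tsum_add (hs0.mul_left (1 / 2)), tsum_mul_left] at h4
  rw [← h4]
  unfold FG PG
  have hne : a + 1 / 2 ≠ 0 := by positivity
  have e5 : Real.exp (u / 2) / (a + 1 / 2) ^ 2 = -(4 / 3 * Real.exp (u / 2)) +
      8 / 3 * Real.exp (u / 2) * (a / (a + 1 / 2) - (a ^ 2 - 1) / 2 / (a + 1 / 2) ^ 2) := by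
    field_simp
    ring
  rw [e5]
  ring

end Pool.Agent.H115.EXCVG
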