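import Mathlib
import Pool.Agent.H601.FP.Stm

set_option autoImplicit false

/-! Project FP, `S_digits`: every power series with constant coefficient `1` over `F_p` is a product
`∏ (1 - X ^ m) ^ (δ_m)` with digits `0 ≤ δ_m < p`. -/

namespace Pool.Agent.H115.FP

open PowerSeries Pool.Agent.H601.FP

variable {p : ℕ} [Fact p.Prime]

/-- the partial products -/
noncomputable def P (F : PowerSeries (ZMod p)) : ℕ → PowerSeries (ZMod p)
  | 0 => 1
  | n + 1 => P F n * ((1 : PowerSeries (ZMod p)) - X ^ (n + 1)) ^ (-(coeff (n + 1) (F - P F n))).val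

/-- the digits -/
noncomputable def dg (F : PowerSeries (ZMod p)) (m : ℕ) : ℕ :=
  (-(coeff m (F - P F (m - 1)))).val

lemma P_succ (F : PowerSeries (ZMod p)) (n : ℕ) :
    P F (n + 1) = P F n * ((1 : PowerSeries (ZMod p)) - X ^ (n + 1)) ^ (dg F (n + 1)) := by
  unfold dg
  rw [Nat.add_sub_cancel]
  rfl

lemma P_eq (F : PowerSeries (ZMod p)) (n : ℕ) :
    P F n = ∏ m ∈ Finset.Icc 1 n, ((1 : PowerSeries (ZMod p)) - X ^ m) ^ (dg F m) := by
  induction n with
  | zero =>
    have e : Finset.Icc 1 0 = (∅ : Finset ℕ) := rfl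
    rw [e, Finset.prod_empty]
    rfl
  | succ n ih =>
    rw [P_succ, Finset.prod_Icc_succ_top (Nat.le_add_left 1 n), ih]

lemma P_const (F : PowerSeries (ZMod p)) (n : ℕ) : constantCoeff (P F n) = 1 := by
  induction n with
  | zero =>
    change constantCoeff (1 : PowerSeries (ZMod p)) = 1
    exact map_one _
  | succ n ih =>
    rw [P_succ, map_mul, ih, map_pow, map_sub, map_one, map_pow, constantCoeff_X,
      zero_pow (Nat.succ_ne_zero n), sub_zero, one_pow, one_mul]

lemma pow_expand {R : Type} [CommRing R] (y : R) (s : ℕ) :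
    ∃ H : R, (1 - y) ^ s = 1 - s * y + y ^ 2 * H := by
  induction s with
  | zero => exact ⟨0, by simp⟩
  | succ s ih =>
    obtain ⟨H, hH⟩ := ih
    refine ⟨H + s - y * H, ?_⟩
    rw [pow_succ, hH]
    push_cast
    ring

lemma main (F : PowerSeries (ZMod p)) (hF : constantCoeff F = 1) (n : ℕ) :
    (X : PowerSeries (ZMod p)) ^ (n + 1) ∣ F - P F n := by
  induction n with
  | zero =>
    rw [zero_add, pow_one, X_dvd_iff, map_sub, hF, P_const, sub_self]
  | succ n ih =>
    obtain ⟨G, hG⟩ := ih
    obtain ⟨H, hH⟩ := pow_expand ((X : PowerSeries (ZMod p)) ^ (n + 1)) (dg F (n + 1))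
    have hc : ((dg F (n + 1) : ℕ) : ZMod p) = -(constantCoeff G) := by
      unfold dg
      rw [ZMod.natCast_zmod_val, Nat.add_sub_cancel, hG, coeff_X_pow_mul', if_pos le_rfl,
        Nat.sub_self, coeff_zero_eq_constantCoeff]
    have h1 : F - P F (n + 1) = X ^ (n + 1) *
        (G + P F n * (((dg F (n + 1) : ℕ) : PowerSeries (ZMod p)) - X ^ (n + 1) * H)) := by
      rw [P_succ, hH]
      have h2 : F = X ^ (n + 1) * G + P F n := by
        rw [← hG]
        ring
      linear_combination h2
    have h3 : (X : PowerSeries (ZMod p)) ∣ G + P F n * (((dg F (n + 1) : ℕ) : PowerSeries (ZMod p)) - X ^ (n + 1) * H) := by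
      rw [X_dvd_iff, map_add, map_mul, P_const, map_sub, map_mul, map_pow, constantCoeff_X,
        zero_pow (Nat.succ_ne_zero n), zero_mul, sub_zero, one_mul, map_natCast, hc]
      ring
    rw [h1, pow_succ]
    exact mul_dvd_mul_left _ h3

theorem s_digits : S_digits := by
  intro p _
  refine ⟨fun F m => dg F m, fun F m => ZMod.val_lt _, ?_⟩
  intro F hF n
  have h := main F hF n
  rw [P_eq] at h
  exact h

end Pool.Agent.H115.FP
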