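import Mathlib
import Pool.Agent.H666.LRC.Defs

/-! Project LRC, T8: two summations by parts. -/

set_option autoImplicit false

namespace Pool.Agent.H115.LRC

open Pool.Agent.H666.LRC

theorem T8 : S_abel := by
  intro φ c W h0 h1 hc R
  induction R with
  | zero =>
    have e : Finset.Icc 1 0 = (∅ : Finset ℕ) := rfl
    rw [e, Finset.sum_empty, Finset.sum_empty]
    change φ 0 * c 0 + 2 * 0 = 0 + (φ 0 * W 1 - φ 1 * W 0)
    rw [h0, h1]
    ring
  | succ R ih =>
    have h := hc (R + 1) (Nat.le_add_left 1 R)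
    rw [Nat.add_sub_cancel] at h
    rw [Finset.sum_Icc_succ_top (Nat.le_add_left 1 R), Finset.sum_Icc_succ_top (Nat.le_add_left 1 R),
      Nat.add_sub_cancel]
    linear_combination ih - φ (R + 1) * h

end Pool.Agent.H115.LRC
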