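import Pool.Agent.H252.MD.Iface
import Pool.Graph.R_pool_sql_team_seeded_620a6dc7.H107_ZS.TLOC

/-!
# Splitting elements of matrices over a crossed product by `ℤ` (MD-SPL, MP_c00d13_an)

The product formula for the matrix entries holds as an unconditionally convergent sum
for all elements (`hasSum_mul`); hence the elements which split at a point form a closed unital
`*`-subalgebra and compressions are multiplicative on them.
-/

set_option autoImplicit false
set_option linter.unusedSectionVars false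

namespace Pool.Agent.H115.MDSPL

open Filter Topology Matrix
open Pool.Agent.H107ZS Pool.Agent.H327R4.Pure Pool.Agent.H252.MD
open scoped CStarAlgebra ComplexOrder

universe u v w

noncomputable section

section general

variable {G : Type u} [Group G] {X : Type v} [TopologicalSpace X] [CompactSpace X]
  [MulAction G X] [ContinuousConstSMul G X] {B : Type w} [CStarAlgebra B] {n : ℕ}
  {ι : C(X, ℂ) →⋆ₐ[ℂ] B} {u : G →* unitary B} {e : Fin n → Fin n → B}
  {E : Fin n → Fin n → B →L[ℂ] C(X, ℂ)}

open Classical in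
/-- finite sums of monomials have finite propagation -/
theorem prp_sum (c : Fin n × Fin n × G →₀ C(X, ℂ)) :
    ∃ K : Finset G, Prp ι u e K (c.sum fun q f => ι f * e q.1 q.2.1 * (u q.2.2 : B)) := by
  induction c using Finsupp.induction_linear with
  | zero => exact ⟨∅, by rw [Finsupp.sum_zero_index]; exact Prp.zero⟩
  | add c c' hc hc' =>
    obtain ⟨K, hK⟩ := hc
    obtain ⟨K', hK'⟩ := hc'
    refine ⟨K ∪ K', ?_⟩
    rw [Finsupp.sum_add_index']
    · exact (hK.mono Finset.subset_union_left).add (hK'.mono Finset.subset_union_right)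
    · intro a; simp
    · intro a b₁ b₂; rw [map_add, add_mul, add_mul]
  | single a f =>
    refine ⟨{a.2.2}, ?_⟩
    rw [Finsupp.sum_single_index (by simp)]
    exact Prp.mon (Finset.mem_singleton_self _) f a.1 a.2.1

/-- closed properties can be checked on elements of finite propagation -/
theorem prp_dense (h : IsMCross ι u e E) {p : B → Prop} (hcl : IsClosed {b | p b})
    (hp : ∀ b (K : Finset G), Prp ι u e K b → p b) (b : B) : p b := by
  refine isClosed_property h.dense hcl (fun c => ?_) b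
  obtain ⟨K, hK⟩ := prp_sum (ι := ι) (u := u) (e := e) c
  exact hp _ K hK

/-- approximation by elements of finite propagation -/
theorem prp_approx (h : IsMCross ι u e E) (b : B) {ε : ℝ} (hε : 0 < ε) :
    ∃ (b' : B) (K : Finset G), Prp ι u e K b' ∧ ‖b - b'‖ < ε := by
  obtain ⟨c, hc⟩ := h.dense.exists_dist_lt b hε
  obtain ⟨K, hK⟩ := prp_sum (ι := ι) (u := u) (e := e) c
  exact ⟨_, K, hK, by rwa [dist_eq_norm] at hc⟩

theorem E_conj_star (h : IsMCross ι u e E) (b : B) (k l : Fin n) (r s : G) (x : X) :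
    E k l (star (u r : B) * star b * (u s : B)) x =
      star (E l k (star (u s : B) * b * (u r : B)) x) := by
  rw [← h.E_star]
  congr 2
  simp only [star_mul, star_star, mul_assoc]

/-- Bessel's inequality, in terms of the diagonal entry of `b* b` -/
theorem bessel (h : IsMCross ι u e E) (b : B) (k : Fin n) (s : G) (x : X) (S : Finset G) :
    ∑ t ∈ S, ∑ j, ‖E j k (star (u t : B) * b * (u s : B)) x‖ ^ 2 ≤
      (E k k (star (u s : B) * (star b * b) * (u s : B)) x).re := by
  classical
  refine prp_dense h (p := fun b => ∑ t ∈ S, ∑ j, ‖E j k (star (u t : B) * b * (u s : B)) x‖ ^ 2 ≤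
      (E k k (star (u s : B) * (star b * b) * (u s : B)) x).re) ?_ ?_ b
  · refine isClosed_le ?_ ?_
    · refine continuous_finsetSum _ fun t _ => continuous_finsetSum _ fun j _ => ?_
      exact (continuous_E_apply E j k x _ _).norm.pow 2
    · have h1 : Continuous fun b : B => E k k (star (u s : B) * (star b * b) * (u s : B)) :=
        (E k k).continuous.comp (by fun_prop)
      exact Complex.continuous_re.comp ((continuous_eval_const x).comp h1)
  · intro b K hK
    let S' : Finset G := S ∪ K.image (· * s)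
    have hS' : ∀ g ∈ K, g * s ∈ S' := fun g hg =>
      Finset.mem_union_right _ (Finset.mem_image_of_mem _ hg)
    rw [h.E_mul (star b) b K hK s s k k x S' hS']
    have h1 : ∀ t : G, ∀ j : Fin n, E k j (star (u s : B) * star b * (u t : B)) x *
        E j k (star (u t : B) * b * (u s : B)) x =
        ((‖E j k (star (u t : B) * b * (u s : B)) x‖ ^ 2 : ℝ) : ℂ) := by
      intro t j
      rw [E_conj_star h, mul_comm, Complex.ofReal_pow]
      exact Complex.mul_conj' _
    simp only [h1]
    simp only [← Complex.ofReal_sum]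
    rw [Complex.ofReal_re]
    exact Finset.sum_le_sum_of_subset_of_nonneg Finset.subset_union_left
      fun t _ _ => Finset.sum_nonneg fun j _ => sq_nonneg _

theorem E_diag_le (h : IsMCross ι u e E) (b : B) (k : Fin n) (s : G) (x : X) :
    (E k k (star (u s : B) * (star b * b) * (u s : B)) x).re ≤ ‖b‖ ^ 2 := by
  classical
  let _ : PartialOrder B := CStarAlgebra.spectralOrder B
  have _ : StarOrderedRing B := CStarAlgebra.spectralOrderedRing B
  have h1 : star b * b ≤ algebraMap ℝ B (‖b‖ ^ 2) := CStarAlgebra.star_mul_le_algebraMap_norm_sq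
  obtain ⟨c, hc⟩ := CStarAlgebra.nonneg_iff_eq_star_mul_self.1 (sub_nonneg.2 h1)
  have h2 := h.pos k (c * (u s : B)) x
  have h3 : star (c * (u s : B)) * (c * (u s : B)) =
      ((‖b‖ ^ 2 : ℝ) : ℂ) • (star (u s : B) * (u s : B)) -
        star (u s : B) * (star b * b) * (u s : B) := by
    have h4 : star (c * (u s : B)) * (c * (u s : B)) = star (u s : B) * (star c * c) * (u s : B) := by
      simp only [star_mul, mul_assoc]
    rw [h4, ← hc, mul_sub, sub_mul, Algebra.algebraMap_eq_smul_one, ← Complex.coe_smul,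
      mul_smul_comm, smul_mul_assoc, mul_one]
  rw [h3, map_sub, map_smul, h.E_one, ContinuousMap.sub_apply, ContinuousMap.smul_apply] at h2
  rw [if_pos ⟨rfl, rfl⟩, ContinuousMap.one_apply, smul_eq_mul, mul_one] at h2
  have h5 := (Complex.le_def.1 h2).1
  rw [Complex.zero_re, Complex.sub_re, Complex.ofReal_re] at h5
  linarith

theorem bessel_col (h : IsMCross ι u e E) (b : B) (k : Fin n) (s : G) (x : X) (S : Finset G) :
    ∑ t ∈ S, ∑ j, ‖E j k (star (u t : B) * b * (u s : B)) x‖ ^ 2 ≤ ‖b‖ ^ 2 :=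
  (bessel h b k s x S).trans (E_diag_le h b k s x)

theorem bessel_row (h : IsMCross ι u e E) (b : B) (k : Fin n) (s : G) (x : X) (S : Finset G) :
    ∑ t ∈ S, ∑ j, ‖E k j (star (u s : B) * b * (u t : B)) x‖ ^ 2 ≤ ‖b‖ ^ 2 := by
  have h1 := bessel_col h (star b) k s x S
  rw [norm_star] at h1
  refine le_trans (le_of_eq ?_) h1
  refine Finset.sum_congr rfl fun t _ => Finset.sum_congr rfl fun j _ => ?_
  rw [E_conj_star h, norm_star]

theorem norm_entry_le (h : IsMCross ι u e E) (b : B) (k l : Fin n) (r s : G) (x : X) :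
    ‖E k l (star (u r : B) * b * (u s : B)) x‖ ≤ ‖b‖ := by
  have h1 := bessel_col h b l s x {r}
  rw [Finset.sum_singleton] at h1
  have h2 : ‖E k l (star (u r : B) * b * (u s : B)) x‖ ^ 2 ≤
      ∑ j, ‖E j l (star (u r : B) * b * (u s : B)) x‖ ^ 2 :=
    Finset.single_le_sum (f := fun j => ‖E j l (star (u r : B) * b * (u s : B)) x‖ ^ 2)
      (fun j _ => sq_nonneg _) (Finset.mem_univ k)
  exact (sq_le_sq₀ (norm_nonneg _) (norm_nonneg _)).1 (h2.trans h1)

/-- the error in the product formula -/
theorem sum_mul_le (h : IsMCross ι u e E) (b d : B) (k l : Fin n) (r s : G) (x : X)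
    (S : Finset G) :
    ‖∑ t ∈ S, ∑ j, E k j (star (u r : B) * b * (u t : B)) x *
        E j l (star (u t : B) * d * (u s : B)) x‖ ≤ ‖b‖ * ‖d‖ := by
  have h1 : ‖∑ t ∈ S, ∑ j, E k j (star (u r : B) * b * (u t : B)) x *
        E j l (star (u t : B) * d * (u s : B)) x‖ ≤
      ∑ p ∈ S ×ˢ (Finset.univ : Finset (Fin n)),
        ‖E k p.2 (star (u r : B) * b * (u p.1 : B)) x‖ *
        ‖E p.2 l (star (u p.1 : B) * d * (u s : B)) x‖ := by
    rw [← Finset.sum_product' S Finset.univ fun t j => E k j (star (u r : B) * b * (u t : B)) x *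
        E j l (star (u t : B) * d * (u s : B)) x]
    refine (norm_sum_le _ _).trans (Finset.sum_le_sum fun p _ => ?_)
    rw [norm_mul]
  refine h1.trans ?_
  have h2 := Finset.sum_mul_sq_le_sq_mul_sq (S ×ˢ (Finset.univ : Finset (Fin n)))
    (fun p => ‖E k p.2 (star (u r : B) * b * (u p.1 : B)) x‖)
    (fun p => ‖E p.2 l (star (u p.1 : B) * d * (u s : B)) x‖)
  have h3 := bessel_row h b k r x S
  have h4 := bessel_col h d l s x S
  rw [← Finset.sum_product' S Finset.univ fun t j =>
    ‖E k j (star (u r : B) * b * (u t : B)) x‖ ^ 2] at h3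
  rw [← Finset.sum_product' S Finset.univ fun t j =>
    ‖E j l (star (u t : B) * d * (u s : B)) x‖ ^ 2] at h4
  have h5 : (∑ p ∈ S ×ˢ (Finset.univ : Finset (Fin n)),
        ‖E k p.2 (star (u r : B) * b * (u p.1 : B)) x‖ *
        ‖E p.2 l (star (u p.1 : B) * d * (u s : B)) x‖) ^ 2 ≤ (‖b‖ * ‖d‖) ^ 2 := by
    rw [mul_pow]
    exact h2.trans (mul_le_mul h3 h4 (Finset.sum_nonneg fun _ _ => sq_nonneg _) (sq_nonneg _))
  exact (sq_le_sq₀ (Finset.sum_nonneg fun _ _ => mul_nonneg (norm_nonneg _) (norm_nonneg _))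
    (mul_nonneg (norm_nonneg _) (norm_nonneg _))).1 h5

/-- the product formula for arbitrary elements -/
theorem hasSum_mul (h : IsMCross ι u e E) (b d : B) (k l : Fin n) (r s : G) (x : X) :
    HasSum (fun t : G => ∑ j, E k j (star (u r : B) * b * (u t : B)) x *
        E j l (star (u t : B) * d * (u s : B)) x)
      (E k l (star (u r : B) * (b * d) * (u s : B)) x) := by
  classical
  rw [HasSum]
  rw [SummationFilter.unconditional_filter, Metric.tendsto_atTop]
  intro ε hε
  have hb : 0 < ε / (2 * (‖b‖ + 1)) := by positivity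
  obtain ⟨d', L, hd', hdd⟩ := prp_approx h d hb
  refine ⟨L.image (· * s), fun S hS => ?_⟩
  have hS' : ∀ g ∈ L, g * s ∈ S := fun g hg => hS (Finset.mem_image_of_mem _ hg)
  have e1 := h.E_mul b d' L hd' r s k l x S hS'
  have e2 := sum_mul_le h b (d - d') k l r s x S
  have e3 := norm_entry_le h (b * (d - d')) k l r s x
  have e4 : ∑ t ∈ S, ∑ j, E k j (star (u r : B) * b * (u t : B)) x *
        E j l (star (u t : B) * (d - d') * (u s : B)) x =
      ∑ t ∈ S, ∑ j, E k j (star (u r : B) * b * (u t : B)) x *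
        E j l (star (u t : B) * d * (u s : B)) x -
      ∑ t ∈ S, ∑ j, E k j (star (u r : B) * b * (u t : B)) x *
        E j l (star (u t : B) * d' * (u s : B)) x := by
    simp only [mul_sub, sub_mul, map_sub, ContinuousMap.sub_apply, Finset.sum_sub_distrib]
  have e5 : E k l (star (u r : B) * (b * (d - d')) * (u s : B)) x =
      E k l (star (u r : B) * (b * d) * (u s : B)) x -
      E k l (star (u r : B) * (b * d') * (u s : B)) x := by
    simp only [mul_sub, sub_mul, map_sub, ContinuousMap.sub_apply]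
  rw [e4, ← e1] at e2
  rw [e5] at e3
  rw [dist_eq_norm]
  have e6 : ‖b * (d - d')‖ ≤ ‖b‖ * ‖d - d'‖ := norm_mul_le _ _
  have e7 : ‖b‖ * ‖d - d'‖ < ε / 2 := by
    have h1 : ‖b‖ * ‖d - d'‖ ≤ ‖b‖ * (ε / (2 * (‖b‖ + 1))) :=
      mul_le_mul_of_nonneg_left hdd.le (norm_nonneg _)
    have h2 : ‖b‖ * (ε / (2 * (‖b‖ + 1))) < (‖b‖ + 1) * (ε / (2 * (‖b‖ + 1))) :=
      mul_lt_mul_of_pos_right (by linarith) hb
    have h3 : (‖b‖ + 1) * (ε / (2 * (‖b‖ + 1))) = ε / 2 := by
      have : ‖b‖ + 1 ≠ 0 := by positivity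
      field_simp
    linarith
  calc _ = ‖(∑ t ∈ S, ∑ j, E k j (star (u r : B) * b * (u t : B)) x *
        E j l (star (u t : B) * d * (u s : B)) x -
        E k l (star (u r : B) * (b * d') * (u s : B)) x) -
        (E k l (star (u r : B) * (b * d) * (u s : B)) x -
      E k l (star (u r : B) * (b * d') * (u s : B)) x)‖ := by congr 1; ring
    _ ≤ _ := norm_sub_le _ _
    _ < ε := by linarith

/-- the entries of `ι f` -/
theorem E_ι (h : IsMCross ι u e E) (f : C(X, ℂ)) (k l : Fin n) (r s : G) (x : X)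
    [Decidable (k = l ∧ r = s)] :
    E k l (star (u r : B) * ι f * (u s : B)) x = if k = l ∧ r = s then f (r • x) else 0 := by
  classical
  have h0 : ι f = ∑ i, mon ι u e f i i (1 : G) := by
    unfold mon
    rw [← Finset.sum_mul, ← Finset.mul_sum, h.e_sum, u_coe_one, mul_one, mul_one]
  rw [h0, Finset.mul_sum, Finset.sum_mul, map_sum, ContinuousMap.sum_apply]
  simp only [h.conj_mon, h.E_mon]
  have e1 : r⁻¹ * 1 * s = 1 ↔ r = s := by rw [mul_one]; exact inv_mul_eq_one
  simp only [e1]
  by_cases hrs : r = s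
  · by_cases hkl : k = l
    · subst hkl
      rw [if_pos ⟨rfl, hrs⟩, Finset.sum_eq_single k]
      · rw [if_pos ⟨rfl, rfl, hrs⟩]; rfl
      · intro i _ hi; rw [if_neg fun hh => hi hh.1.symm]; rfl
      · intro hk; exact absurd (Finset.mem_univ _) hk
    · rw [if_neg fun hh => hkl hh.1]
      refine Finset.sum_eq_zero fun i _ => ?_
      rw [if_neg fun hh => hkl (hh.1.trans hh.2.1.symm)]; rfl
  · rw [if_neg fun hh => hrs hh.2]
    refine Finset.sum_eq_zero fun i _ => ?_
    rw [if_neg fun hh => hrs hh.2.2]; rfl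

end general

section int

variable {X : Type v} [TopologicalSpace X] [CompactSpace X]
  [MulAction Zm X] [ContinuousConstSMul Zm X] {B : Type w} [CStarAlgebra B] {n : ℕ}
  {ι : C(X, ℂ) →⋆ₐ[ℂ] B} {u : Zm →* unitary B} {e : Fin n → Fin n → B}
  {E : Fin n → Fin n → B →L[ℂ] C(X, ℂ)}

theorem zt_add (i j : ℤ) : zt (i + j) = zt i * zt j := rfl

theorem zt_zero : zt 0 = 1 := rfl

theorem zt_toAdd (t : Zm) : zt (Multiplicative.toAdd t) = t := rfl

theorem zt_inj {i j : ℤ} : zt i = zt j ↔ i = j := Multiplicative.ofAdd.injective.eq_iff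

theorem E_shift (h : IsMCross ι u e E) (b : B) (m i j : ℤ) (k l : Fin n) (x : X) :
    E k l (star (u (zt (m + i)) : B) * b * (u (zt (m + j)) : B)) x =
      E k l (star (u (zt i) : B) * b * (u (zt j) : B)) (zt m • x) := by
  rw [← h.E_conj]
  congr 2
  rw [add_comm m i, add_comm m j, zt_add, zt_add, u_coe_mul, u_coe_mul, star_mul]
  simp only [mul_assoc]

end int

end

/-- **SPL** -/
theorem s_SPL : S_SPL := by
  classical
  intro X _ _ _ _ B _ n ι u e E h
  have hmul : ∀ x (b d : B), SplitAt u E b x → SplitAt u E d x → SplitAt u E (b * d) x := by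
    intro x b d hb hd i j hi hj k l
    refine ⟨?_, ?_⟩
    · refine (hasSum_mul h b d k l (zt i) (zt j) x).unique ?_
      refine hasSum_zero.congr_fun fun t => Finset.sum_eq_zero fun q _ => ?_
      rw [← zt_toAdd t]
      by_cases ht : 0 ≤ Multiplicative.toAdd t
      · rw [(hd _ j ht hj q l).1, mul_zero]
      · rw [(hb i _ hi (not_le.1 ht) k q).1, zero_mul]
    · refine (hasSum_mul h b d k l (zt j) (zt i) x).unique ?_
      refine hasSum_zero.congr_fun fun t => Finset.sum_eq_zero fun q _ => ?_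
      rw [← zt_toAdd t]
      by_cases ht : 0 ≤ Multiplicative.toAdd t
      · rw [(hb _ j ht hj k q).2, zero_mul]
      · rw [(hd i _ hi (not_le.1 ht) q l).2, mul_zero]
  have hstar : ∀ x (b : B), SplitAt u E b x → SplitAt u E (star b) x := by
    intro x b hb i j hi hj k l
    rw [E_conj_star h, E_conj_star h, (hb i j hi hj l k).1, (hb i j hi hj l k).2, star_zero]
    exact ⟨rfl, rfl⟩
  have hlin : ∀ x (b d : B) (c : ℂ), SplitAt u E b x → SplitAt u E d x →
      SplitAt u E (c • b + d) x := by
    intro x b d c hb hd i j hi hj k l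
    simp only [mul_add, add_mul, mul_smul_comm, smul_mul_assoc, map_add, map_smul,
      ContinuousMap.add_apply, ContinuousMap.smul_apply]
    rw [(hb i j hi hj k l).1, (hb i j hi hj k l).2, (hd i j hi hj k l).1, (hd i j hi hj k l).2]
    simp
  have hι : ∀ x (f : C(X, ℂ)), SplitAt u E (ι f) x := by
    intro x f i j hi hj k l
    rw [E_ι h, E_ι h, if_neg fun hh => ?_, if_neg fun hh => ?_]
    · exact ⟨rfl, rfl⟩
    · have := zt_inj.1 hh.2; omega
    · have := zt_inj.1 hh.2; omega
  have hone : ∀ x, SplitAt u E (1 : B) x := fun x => by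
    have := hι x 1
    rwa [map_one] at this
  have hWlin : ∀ (Λ : ℕ) x (b d : B) (c : ℂ),
      W u E (c • b + d) Λ x = c • W u E b Λ x + W u E d Λ x := by
    intro Λ x b d c
    ext p q
    simp only [W, mul_add, add_mul, mul_smul_comm, smul_mul_assoc, map_add, map_smul,
      ContinuousMap.add_apply, ContinuousMap.smul_apply, Matrix.add_apply, Matrix.smul_apply]
  have hWι : ∀ x (f : C(X, ℂ)) (Λ : ℕ), W u E (ι f) Λ x =
    Matrix.diagonal fun p : Fin n × Fin Λ => f (zt ((p.2 : ℕ) : ℤ) • x) := by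
    intro x f Λ
    ext p q
    rw [Matrix.diagonal_apply, W, E_ι h]
    by_cases hpq : p = q
    · subst hpq
      rw [if_pos ⟨rfl, rfl⟩, if_pos rfl]
    · rw [if_neg hpq, if_neg]
      rintro ⟨h1, h2⟩
      exact hpq (Prod.ext h1 (Fin.ext (by exact_mod_cast zt_inj.1 h2)))
  refine ⟨hmul, ?_, hstar, ?_, hlin, ?_, ?_, ?_, hι, hWι, ?_, ?_, hWlin, ?_⟩
  · -- (2)
    intro x b d Λ hb hbΛ
    ext p q
    rw [Matrix.mul_apply]
    let S : Finset Zm := (Finset.univ : Finset (Fin Λ)).image fun i : Fin Λ => zt ((i : ℕ) : ℤ)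
    have hinj : Function.Injective fun i : Fin Λ => zt ((i : ℕ) : ℤ) := fun i j hij =>
      Fin.ext (by exact_mod_cast zt_inj.1 hij)
    have h1 := hasSum_mul h b d p.1 q.1 (zt ((p.2 : ℕ) : ℤ)) (zt ((q.2 : ℕ) : ℤ)) x
    have h2 : HasSum (fun t : Zm => ∑ j, E p.1 j (star (u (zt ((p.2 : ℕ) : ℤ)) : B) * b *
        (u t : B)) x * E j q.1 (star (u t : B) * d * (u (zt ((q.2 : ℕ) : ℤ)) : B)) x)
        (∑ t ∈ S, ∑ j, E p.1 j (star (u (zt ((p.2 : ℕ) : ℤ)) : B) * b *
        (u t : B)) x * E j q.1 (star (u t : B) * d * (u (zt ((q.2 : ℕ) : ℤ)) : B)) x) := by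
      refine hasSum_sum_of_ne_finset_zero fun t ht => Finset.sum_eq_zero fun j _ => ?_
      rw [← zt_toAdd t]
      have hp := p.2.isLt
      by_cases h0 : 0 ≤ Multiplicative.toAdd t
      · have h3 : (Λ : ℤ) ≤ Multiplicative.toAdd t := by
          by_contra hlt
          push Not at hlt
          apply ht
          refine Finset.mem_image.2 ⟨⟨(Multiplicative.toAdd t).toNat, by omega⟩,
            Finset.mem_univ _, ?_⟩
          show zt (((Multiplicative.toAdd t).toNat : ℕ) : ℤ) = t
          rw [Int.toNat_of_nonneg h0, zt_toAdd]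
        have h4 := E_shift h b Λ ((p.2 : ℕ) - (Λ : ℤ)) (Multiplicative.toAdd t - Λ) p.1 j x
        rw [add_sub_cancel, add_sub_cancel] at h4
        rw [h4, (hbΛ (Multiplicative.toAdd t - Λ) ((p.2 : ℕ) - (Λ : ℤ)) (by omega) (by omega)
          p.1 j).2, zero_mul]
      · rw [(hb ((p.2 : ℕ) : ℤ) _ (by omega) (not_le.1 h0) p.1 j).1, zero_mul]
    have h3 := h1.unique h2
    rw [Finset.sum_image fun i _ j _ hij => hinj hij, ← Fintype.sum_prod_type_right'] at h3
    exact h3
  · -- (4)
    intro x b Λ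
    ext p q
    rw [Matrix.conjTranspose_apply]
    exact E_conj_star h b _ _ _ _ x
  · -- (6)
    intro x b f _ _ hb
    let T : StarSubalgebra ℂ B :=
      { carrier := {b | SplitAt u E b x}
        mul_mem' := fun ha hb => hmul x _ _ ha hb
        one_mem' := hone x
        add_mem' := fun {a b} ha hb => by
          have := hlin x a b 1 ha hb
          rwa [one_smul] at this
        zero_mem' := fun i j _ _ k l => by simp
        algebraMap_mem' := fun r => by
          have := hlin x 1 0 r (hone x) (fun i j _ _ k l => by simp)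
          rwa [add_zero, ← Algebra.algebraMap_eq_smul_one] at this
        star_mem' := fun ha => hstar x _ ha }
    have hT : IsClosed (T : Set B) := by
      have h1 : (T : Set B) = ⋂ (i : ℤ) (j : ℤ) (_ : 0 ≤ i) (_ : j < 0) (k : Fin n) (l : Fin n),
          {b | E k l (star (u (zt i) : B) * b * (u (zt j) : B)) x = 0 ∧
            E k l (star (u (zt j) : B) * b * (u (zt i) : B)) x = 0} := by
        ext b
        simp only [Set.mem_iInter, Set.mem_ofPred_eq]
        rfl
      rw [h1]
      refine isClosed_iInter fun i => isClosed_iInter fun j => isClosed_iInter fun _ =>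
        isClosed_iInter fun _ => isClosed_iInter fun k => isClosed_iInter fun l => ?_
      exact (isClosed_eq (continuous_E_apply E k l x _ _) continuous_const).inter
        (isClosed_eq (continuous_E_apply E k l x _ _) continuous_const)
    exact cfc_mem (𝕜 := ℝ) (𝕜' := ℂ) (s := T) (hs := hT) f hb
  · -- (7)
    intro x b m i j k l
    exact E_shift h b m i j k l x
  · -- (8)
    intro x Λ
    have := hWι x 1 Λ
    rw [map_one] at this
    rw [this]
    ext p q
    rw [Matrix.diagonal_apply, Matrix.one_apply]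
    rfl
  · -- (11)
    intro x b Λ k l
    exact norm_entry_le h b _ _ _ _ x
  · -- (12)
    intro b Λ
    refine continuous_matrix fun p q => ?_
    exact (E p.1 q.1 (star (u (zt ((p.2 : ℕ) : ℤ)) : B) * b *
      (u (zt ((q.2 : ℕ) : ℤ)) : B))).continuous
  · -- (14)
    intro Λ x b
    let S : Finset Zm := (Finset.univ : Finset (Fin Λ)).image fun i : Fin Λ => zt ((i : ℕ) : ℤ)
    let g : Fin n × Fin Λ → Fin n × S := fun p =>
      (p.1, ⟨zt ((p.2 : ℕ) : ℤ), Finset.mem_image_of_mem _ (Finset.mem_univ _)⟩)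
    have h1 := ((t_POS Zm X B n ι u e E h S x).2 b).submatrix g
    exact h1

end Pool.Agent.H115.MDSPL
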