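import Pool.Agent.H468.QF.Stm

/-!
# 17a2 over quadratic fields (helper468): the number of the classes `u` (helper115)
-/

set_option autoImplicit false

open scoped Classical

namespace Pool.Agent.H115.QF

open Pool.Agent.H468.QF
open Pool.Agent.H743.X17 (lam ind up RS Kn nu)

/-- The squarefree integers with given sign and prime factors. -/
def vl (b : Bool) (S : Finset ℕ) : ℤ := (if b then -1 else 1) * ∏ p ∈ S, (p : ℤ)

theorem vl_natAbs (b : Bool) (S : Finset ℕ) : (vl b S).natAbs = ∏ p ∈ S, p := by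
  unfold vl
  rw [Int.natAbs_mul]
  have h1 : (if b = true then (-1 : ℤ) else 1).natAbs = 1 := by
    split_ifs <;> rfl
  rw [h1, one_mul, ← Nat.cast_prod, Int.natAbs_natCast]

theorem prod_sq {S : Finset ℕ} (h : ∀ p ∈ S, p.Prime) : Squarefree (∏ p ∈ S, p) := by
  induction S using Finset.induction_on with
  | empty => simp
  | insert a S ha ih =>
    rw [Finset.prod_insert ha, Nat.squarefree_mul_iff]
    have hpa := h a (Finset.mem_insert_self a S)
    refine ⟨?_, hpa.prime.squarefree, ih fun p hp => h p (Finset.mem_insert_of_mem hp)⟩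
    refine Nat.Coprime.prod_right fun p hp => ?_
    rw [Nat.coprime_primes hpa (h p (Finset.mem_insert_of_mem hp))]
    rintro rfl
    exact ha hp

theorem vl_sq {b : Bool} {S : Finset ℕ} (h : ∀ p ∈ S, p.Prime) : Squarefree (vl b S) := by
  rw [← Int.squarefree_natAbs, vl_natAbs]
  exact prod_sq h

theorem vl_dvd {b : Bool} {S : Finset ℕ} (h : ∀ p ∈ S, p.Prime) {p : ℕ} (hp : p.Prime) :
    (p : ℤ) ∣ vl b S ↔ p ∈ S := by
  rw [Int.natCast_dvd, vl_natAbs, hp.prime.dvd_finsetProd_iff]
  constructor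
  · rintro ⟨q, hq, hd⟩
    rw [(Nat.prime_dvd_prime_iff_eq hp (h q hq)).1 hd]
    exact hq
  · intro hS
    exact ⟨p, hS, dvd_rfl⟩

theorem vl_insert (b : Bool) {S : Finset ℕ} {p : ℕ} (hp : p ∉ S) :
    vl b (insert p S) = vl b S * p := by
  unfold vl
  rw [Finset.prod_insert hp]
  ring

theorem vl_inj {b b' : Bool} {S S' : Finset ℕ} (h : ∀ p ∈ S, p.Prime) (h' : ∀ p ∈ S', p.Prime)
    (he : vl b S = vl b' S') : b = b' ∧ S = S' := by
  have h1 : S = S' := by
    ext p
    constructor
    · intro hp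
      rw [← vl_dvd (b := b') h' (h p hp), ← he]
      exact (vl_dvd h (h p hp)).2 hp
    · intro hp
      rw [← vl_dvd (b := b) h (h' p hp), he]
      exact (vl_dvd h' (h' p hp)).2 hp
  refine ⟨?_, h1⟩
  subst h1
  have hne : ∏ p ∈ S, (p : ℤ) ≠ 0 :=
    Finset.prod_ne_zero_iff.2 fun p hp => by exact_mod_cast (h p hp).ne_zero
  unfold vl at he
  have h2 := mul_right_cancel₀ hne he
  cases b <;> cases b' <;> simp_all

theorem vl_surj {u : ℤ} (hu : Squarefree u) : ∃ b, u = vl b u.natAbs.primeFactors := by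
  have h1 : ∏ p ∈ u.natAbs.primeFactors, p = u.natAbs :=
    Nat.prod_primeFactors_of_squarefree (Int.squarefree_natAbs.2 hu)
  have h2 : ∏ p ∈ u.natAbs.primeFactors, (p : ℤ) = (u.natAbs : ℤ) := by
    rw [← Nat.cast_prod, h1]
  unfold vl
  rw [h2]
  rcases le_or_gt 0 u with h | h
  · refine ⟨false, ?_⟩
    simp only [Bool.false_eq_true, if_false, one_mul]
    exact (Int.natAbs_of_nonneg h).symm
  · refine ⟨true, ?_⟩
    simp only [if_true]
    omega

theorem mem_RS {m : ℤ} (hm : m ≠ 0) {p : ℕ} :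
    p ∈ RS m ↔ p.Prime ∧ ((p : ℤ) ∣ m ∨ (p = 2 ∧ m % 4 ≠ 1)) := by
  have hm' : m.natAbs ≠ 0 := Int.natAbs_ne_zero.2 hm
  unfold RS Kn
  split_ifs with h
  · rw [Nat.mem_primeFactors]
    constructor
    · rintro ⟨h1, h2, -⟩
      exact ⟨h1, Or.inl (Int.natCast_dvd.2 h2)⟩
    · rintro ⟨h1, h2 | h2⟩
      · exact ⟨h1, Int.natCast_dvd.1 h2, hm'⟩
      · exact absurd h h2.2
  · rw [Nat.mem_primeFactors]
    constructor
    · rintro ⟨h1, h2, -⟩
      refine ⟨h1, ?_⟩
      rcases (Nat.Prime.dvd_mul h1).1 h2 with h3 | h3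
      · right
        refine ⟨?_, h⟩
        have h4 : p ∣ 2 ^ 2 := h3
        exact (Nat.prime_dvd_prime_iff_eq h1 Nat.prime_two).1 (h1.dvd_of_dvd_pow h4)
      · exact Or.inl (Int.natCast_dvd.2 h3)
    · rintro ⟨h1, h2 | h2⟩
      · exact ⟨h1, (Int.natCast_dvd.1 h2).mul_left 4, mul_ne_zero (by norm_num) hm'⟩
      · refine ⟨h1, ?_, mul_ne_zero (by norm_num) hm'⟩
        rw [h2.1]
        exact Dvd.dvd.mul_right (by norm_num) _

/-- The support of a class. -/
theorem UU_supp {m u : ℤ} (hm : m ≠ 0) (h : UU m u) : u.natAbs.primeFactors ⊆ RS m := by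
  intro p hp
  rw [Nat.mem_primeFactors] at hp
  obtain ⟨h1, h2, -⟩ := hp
  have h3 : (p : ℤ) ∣ u := Int.natCast_dvd.2 h2
  rw [mem_RS hm]
  refine ⟨h1, ?_⟩
  by_cases hp2 : p = 2
  · subst hp2
    right
    exact ⟨rfl, fun h4 => h.o2 h4 (by exact_mod_cast h3)⟩
  · left
    by_contra h4
    by_cases hp17 : p = 17
    · subst hp17
      exact (h.s17 (by exact_mod_cast h4)).1 (by exact_mod_cast h3)
    · exact h.good p h1 hp2 hp17 h4 h3

/-- The quadratic condition. -/
def cd (m u : ℤ) : Prop := (¬ (17 : ℤ) ∣ m → jacobiSym m 17 = 1 → jacobiSym u 17 = 1) ∧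
  ((17 : ℤ) ∣ m → lam 17 u = ind 17 u * lam 17 m)

theorem UU_iff {m : ℤ} (hm : m ≠ 0) {b : Bool} {S : Finset ℕ} (hS : S ⊆ RS m) :
    UU m (vl b S) ↔ cd m (vl b S) := by
  have hpr : ∀ p ∈ S, p.Prime := fun p hp => ((mem_RS hm).1 (hS hp)).1
  constructor
  · intro h
    exact ⟨fun h1 => (h.s17 h1).2, h.r17⟩
  · rintro ⟨h1, h2⟩
    refine ⟨vl_sq hpr, ?_, ?_, h2, ?_⟩
    · intro p hp hp2 _ hpm hpu
      rw [vl_dvd hpr hp] at hpu
      rcases ((mem_RS hm).1 (hS hpu)).2 with h3 | h3
      · exact hpm h3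
      · exact hp2 h3.1
    · intro h3
      refine ⟨fun h4 => ?_, h1 h3⟩
      have h5 : ((17 : ℕ) : ℤ) ∣ vl b S := by exact_mod_cast h4
      rw [vl_dvd hpr (by norm_num)] at h5
      rcases ((mem_RS hm).1 (hS h5)).2 with h6 | h6
      · exact h3 (by exact_mod_cast h6)
      · exact absurd h6.1 (by norm_num)
    · intro h3 h4
      have h5 : ((2 : ℕ) : ℤ) ∣ vl b S := by exact_mod_cast h4
      rw [vl_dvd hpr Nat.prime_two] at h5
      rcases ((mem_RS hm).1 (hS h5)).2 with h6 | h6
      · have h7 : (2 : ℤ) ∣ m := by exact_mod_cast h6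
        omega
      · exact h6.2 h3

/-- The number of the classes as the number of pairs. -/
theorem card_eq {m : ℤ} (hm : m ≠ 0) : Nat.card {u : ℤ // UU m u} =
    ∑ b : Bool, ∑ S ∈ (RS m).powerset, if cd m (vl b S) then 1 else 0 := by
  have h1 : Nat.card {u : ℤ // UU m u} =
      (((Finset.univ : Finset Bool) ×ˢ (RS m).powerset).filter
        fun q => cd m (vl q.1 q.2)).card := by
    have h2 : Set.InjOn (fun q : Bool × Finset ℕ => vl q.1 q.2)
        (((Finset.univ : Finset Bool) ×ˢ (RS m).powerset).filter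
          fun q => cd m (vl q.1 q.2) : Finset (Bool × Finset ℕ)) := by
      intro q hq q' hq' he
      rw [Finset.mem_coe, Finset.mem_filter, Finset.mem_product, Finset.mem_powerset] at hq hq'
      obtain ⟨e1, e2⟩ := vl_inj (fun p hp => ((mem_RS hm).1 (hq.1.2 hp)).1)
        (fun p hp => ((mem_RS hm).1 (hq'.1.2 hp)).1) he
      exact Prod.ext e1 e2
    rw [← Finset.card_image_of_injOn h2, ← Set.ncard_coe_finset, ← Nat.card_coe_set_eq]
    congr 1
    have h3 : {u : ℤ | UU m u} = ((((Finset.univ : Finset Bool) ×ˢ (RS m).powerset).filter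
        fun q => cd m (vl q.1 q.2)).image (fun q : Bool × Finset ℕ => vl q.1 q.2) : Finset ℤ) := by
      ext u
      rw [Set.mem_ofPred_eq, Finset.mem_coe, Finset.mem_image]
      constructor
      · intro h
        obtain ⟨b, hb⟩ := vl_surj h.sq
        have hs := UU_supp hm h
        refine ⟨(b, u.natAbs.primeFactors), ?_, hb.symm⟩
        rw [Finset.mem_filter, Finset.mem_product, Finset.mem_powerset]
        refine ⟨⟨Finset.mem_univ b, hs⟩, ?_⟩
        rw [← UU_iff hm hs]
        change UU m (vl b u.natAbs.primeFactors)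
        rw [← hb]
        exact h
      · rintro ⟨q, hq, rfl⟩
        rw [Finset.mem_filter, Finset.mem_product, Finset.mem_powerset] at hq
        exact (UU_iff hm hq.1.2).2 hq.2
    exact congrArg (fun s : Set ℤ => (s : Type)) h3
  rw [h1, Finset.card_filter, Finset.sum_product]

theorem jac_p {p : ℕ} (hp : p.Prime) (hp17 : p ≠ 17) (hnu : nu p = 1) :
    jacobiSym p 17 = -1 := by
  unfold nu at hnu
  split_ifs at hnu with h1 h2
  · exact absurd hnu (by decide)
  · exact absurd hnu (by decide)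
  · have hodd : Odd p := hp.odd_of_ne_two h1
    have h3 : jacobiSym (17 : ℕ) p = jacobiSym p 17 :=
      jacobiSym.quadratic_reciprocity_one_mod_four (by norm_num) hodd
    have h4 : jacobiSym p 17 = 1 ∨ jacobiSym p 17 = -1 := by
      apply jacobiSym.eq_one_or_neg_one
      have h5 : Nat.Coprime p 17 := (Nat.coprime_primes hp (by norm_num)).2 hp17
      change Int.gcd ((p : ℕ) : ℤ) ((17 : ℕ) : ℤ) = 1
      rw [Int.gcd_natCast_natCast]
      exact h5
    rcases h4 with h4 | h4
    · exfalso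
      apply h2
      rw [← h4, ← h3]
      norm_num
    · exact h4

theorem jac_one {u : ℤ} (h : ¬ (17 : ℤ) ∣ u) : jacobiSym u 17 = 1 ∨ jacobiSym u 17 = -1 := by
  apply jacobiSym.eq_one_or_neg_one
  have h1 : Prime (17 : ℤ) := by
    have : Nat.Prime 17 := by norm_num
    exact_mod_cast Nat.prime_iff_prime_int.1 this
  have h2 : IsCoprime (17 : ℤ) u := (h1.coprime_iff_not_dvd).2 h
  exact_mod_cast Int.isCoprime_iff_gcd_eq_one.1 h2.symm

theorem jac_mul {u : ℤ} {p : ℕ} (hu : ¬ (17 : ℤ) ∣ u) (hp : jacobiSym p 17 = -1) :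
    jacobiSym (u * p) 17 = 1 ↔ ¬ jacobiSym u 17 = 1 := by
  rw [jacobiSym.mul_left, hp]
  rcases jac_one hu with h | h
  · rw [h]
    norm_num
  · rw [h]
    norm_num

/-- The condition changes. -/
theorem cd_toggle {m u : ℤ} (hu : Squarefree u) {p : ℕ} (hp : p.Prime) (hp17 : p ≠ 17)
    (hnu : nu p = 1) (hj : (17 : ℤ) ∣ m ∨ jacobiSym m 17 = 1)
    (h17 : ¬ (17 : ℤ) ∣ m → ¬ (17 : ℤ) ∣ u) : cd m (u * p) ↔ ¬ cd m u := by
  have hjp := jac_p hp hp17 hnu
  by_cases hm : (17 : ℤ) ∣ m
  · have e1 : cd m (u * p) ↔ lam 17 (u * p) = ind 17 (u * p) * lam 17 m :=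
      ⟨fun h => h.2 hm, fun h => ⟨fun h1 => absurd hm h1, fun _ => h⟩⟩
    have e2 : cd m u ↔ lam 17 u = ind 17 u * lam 17 m :=
      ⟨fun h => h.2 hm, fun h => ⟨fun h1 => absurd hm h1, fun _ => h⟩⟩
    rw [e1, e2]
    have hpr : Prime (17 : ℤ) := by
      have : Nat.Prime 17 := by norm_num
      exact_mod_cast Nat.prime_iff_prime_int.1 this
    have hnp : ¬ (17 : ℤ) ∣ (p : ℤ) := by
      intro h
      have h1 : 17 ∣ p := by exact_mod_cast h
      exact hp17 ((Nat.prime_dvd_prime_iff_eq (by norm_num) hp).1 h1).symm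
    have hd : (17 : ℤ) ∣ u * p ↔ (17 : ℤ) ∣ u := by
      constructor
      · intro h
        exact (hpr.dvd_or_dvd h).resolve_right hnp
      · intro h
        exact h.mul_right _
    have hind : ind 17 (u * p) = ind 17 u := by
      unfold ind
      simp only [Nat.cast_ofNat, hd]
    have hup : up 17 (u * p) = up 17 u * p ∧ ¬ (17 : ℤ) ∣ up 17 u := by
      unfold up
      simp only [Nat.cast_ofNat, hd]
      split_ifs with h
      · obtain ⟨c, rfl⟩ := h
        have h1 : (17 : ℤ) * c * p / 17 = c * p := by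
          rw [mul_assoc]
          exact Int.mul_ediv_cancel_left _ (by norm_num)
        have h2 : (17 : ℤ) * c / 17 = c := Int.mul_ediv_cancel_left _ (by norm_num)
        rw [h1, h2]
        refine ⟨rfl, fun h3 => ?_⟩
        obtain ⟨d, rfl⟩ := h3
        have h4 := hu 17 ⟨d, by ring⟩
        exact hpr.not_isUnit h4
      · exact ⟨rfl, h⟩
    have hlam : lam 17 (u * p) = lam 17 u + 1 := by
      unfold lam
      rw [hup.1]
      by_cases h : jacobiSym (up 17 u) 17 = 1
      · have h1 : ¬ jacobiSym (up 17 u * p) 17 = 1 := fun h2 => (jac_mul hup.2 hjp).1 h2 h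
        rw [if_neg h1, if_pos h]
        decide
      · have h1 : jacobiSym (up 17 u * p) 17 = 1 := (jac_mul hup.2 hjp).2 h
        rw [if_pos h1, if_neg h]
        decide
    rw [hlam, hind]
    generalize lam 17 u = a
    generalize ind 17 u * lam 17 m = c
    revert a c
    decide
  · have hj1 : jacobiSym m 17 = 1 := hj.resolve_left hm
    have e1 : cd m (u * p) ↔ jacobiSym (u * p) 17 = 1 :=
      ⟨fun h => h.1 hm hj1, fun h => ⟨fun _ _ => h, fun h1 => absurd h1 hm⟩⟩
    have e2 : cd m u ↔ jacobiSym u 17 = 1 :=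
      ⟨fun h => h.1 hm hj1, fun h => ⟨fun _ _ => h, fun h1 => absurd h1 hm⟩⟩
    rw [e1, e2]
    exact jac_mul (h17 hm) hjp

/-- **CNTU.** -/
theorem t_CNTU : S_CNTU := by
  intro m hmsq hex
  have hm : m ≠ 0 := hmsq.ne_zero
  rw [card_eq hm]
  split_ifs with hj
  · -- no quadratic condition
    have h17 : ¬ (17 : ℤ) ∣ m := by
      intro h
      have h1 : jacobiSym m 17 = 0 := by
        obtain ⟨c, rfl⟩ := h
        rw [jacobiSym.mul_left]
        have : jacobiSym 17 17 = 0 := by decide +kernel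
        rw [this, zero_mul]
      rw [h1] at hj
      exact absurd hj (by norm_num)
    have h1 : ∀ (b : Bool) (S : Finset ℕ), cd m (vl b S) := fun b S =>
      ⟨fun _ h => absurd (hj.symm.trans h) (by norm_num), fun h => absurd h h17⟩
    simp only [h1, if_true, Finset.sum_const, Finset.card_powerset, smul_eq_mul, mul_one,
      Finset.card_univ, Fintype.card_bool]
    rw [pow_succ, mul_comm]
  · have hj' : (17 : ℤ) ∣ m ∨ jacobiSym m 17 = 1 := by
      by_cases h : (17 : ℤ) ∣ m
      · exact Or.inl h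
      · exact Or.inr ((jac_one h).resolve_right hj)
    obtain ⟨p, hp, hnu⟩ := hex hj'
    rw [Finset.mem_erase] at hp
    have hpp : p.Prime := ((mem_RS hm).1 hp.2).1
    have hRS : RS m = insert p ((RS m).erase p) := (Finset.insert_erase hp.2).symm
    have hcard : (RS m).card = ((RS m).erase p).card + 1 := (Finset.card_erase_add_one hp.2).symm
    have h1 : ∀ b : Bool, ∑ S ∈ (RS m).powerset, (if cd m (vl b S) then 1 else 0) =
        2 ^ ((RS m).erase p).card := by
      intro b
      rw [hRS, Finset.sum_powerset_insert (Finset.notMem_erase p _), ← Finset.sum_add_distrib]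
      rw [Finset.erase_insert (Finset.notMem_erase p _)]
      have h2 : ∀ S ∈ ((RS m).erase p).powerset, ((if cd m (vl b S) then 1 else 0) +
          (if cd m (vl b (insert p S)) then 1 else 0)) = 1 := by
        intro S hS
        rw [Finset.mem_powerset] at hS
        have hpS : p ∉ S := fun h => Finset.notMem_erase p _ (hS h)
        have hpr : ∀ q ∈ S, q.Prime := fun q hq =>
          ((mem_RS hm).1 (Finset.mem_of_mem_erase (hS hq))).1
        have h3 := cd_toggle (m := m) (u := vl b S) (vl_sq hpr) hpp hp.1 hnu hj' (by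
          intro h4 h5
          have h6 : ((17 : ℕ) : ℤ) ∣ vl b S := by exact_mod_cast h5
          rw [vl_dvd hpr (by norm_num)] at h6
          rcases ((mem_RS hm).1 (Finset.mem_of_mem_erase (hS h6))).2 with h7 | h7
          · exact h4 (by exact_mod_cast h7)
          · exact absurd h7.1 (by norm_num))
        rw [vl_insert b hpS]
        by_cases h4 : cd m (vl b S)
        · rw [if_pos h4, if_neg (fun h5 => (h3.1 h5) h4)]
        · rw [if_neg h4, if_pos (h3.2 h4)]
      rw [Finset.sum_congr rfl h2, Finset.sum_const, Finset.card_powerset, smul_eq_mul, mul_one]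
    rw [Finset.sum_congr rfl fun b _ => h1 b, Finset.sum_const, Finset.card_univ,
      Fintype.card_bool, smul_eq_mul, hcard, pow_succ, mul_comm]

end Pool.Agent.H115.QF
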