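import Pool.Agent.H666.TK.SpecB

/-!
# Coincidences and adjacencies in `QQ` (tasks S_q12, S_q34)
-/

set_option autoImplicit false
set_option linter.unusedSectionVars false

open Finset
open scoped Classical

namespace Pool.Agent.H115.TK

open Pool.Agent.H666.TK

/-- a set which is mapped to `t` with small fibres -/
theorem fib {α β γ : Type} (s : Finset α) (t : Finset β) (f : α → β) (g : α → γ) (n : ℕ)
    (hf : ∀ p ∈ s, f p ∈ t) (hg : ∀ p ∈ s, ∀ q ∈ s, f p = f q → g p = g q → p = q)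
    (U : α → Finset γ) (hU : ∀ p ∈ s, (U p).card ≤ n)
    (hm : ∀ p ∈ s, ∀ q ∈ s, f q = f p → g q ∈ U p) : s.card ≤ n * t.card := by
  refine Finset.card_le_mul_card_image_of_maps_to hf n fun b _ => ?_
  rcases (s.filter fun a => f a = b).eq_empty_or_nonempty with h | ⟨p, hp⟩
  · rw [h, card_empty]
    exact Nat.zero_le _
  · obtain ⟨hps, hpb⟩ := mem_filter.1 hp
    refine le_trans (Finset.card_le_card_of_injOn g (fun q hq => ?_) ?_) (hU p hps)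
    · obtain ⟨hqs, hqb⟩ := mem_filter.1 hq
      exact hm p hps q hqs (hqb.trans hpb.symm)
    · intro q hq q' hq' h
      obtain ⟨hqs, hqb⟩ := mem_filter.1 hq
      obtain ⟨hqs', hqb'⟩ := mem_filter.1 hq'
      exact hg q hqs q' hqs' (hqb.trans hqb'.symm) h

section

variable {V : Type} [Fintype V] [DecidableEq V] {H : Finset (Finset V)} {B k : ℕ}

theorem mem_QQ {R : Finset V} {a b x c z : V} :
    (R, a, b, x, c, z) ∈ QQ H B k ↔ R ∈ Cs H k ∧ Lt H B R a b x ∧ Lt H B R c z x := by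
  simp [QQ]

theorem mem_TL {R : Finset V} {a b x : V} :
    (R, a, b, x) ∈ TL H B k ↔ R ∈ Cs H k ∧ Lt H B R a b x := by
  simp [TL]

theorem mem_PP {R : Finset V} {a b x z : V} :
    (R, a, b, x, z) ∈ PP H B k ↔ R ∈ Cs H k ∧ Lt H B R a b x ∧ AD H R x z := by
  simp [PP]

/-- the `z` which form a critical triple with `a`, `b` -/
noncomputable def UU (H : Finset (Finset V)) (R : Finset V) (a b : V) : Finset V :=
  univ.filter fun z => Tr H R a b z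

theorem card_UU {R : Finset V} {a b : V} : (UU H R a b).card = cd H R a b := rfl

theorem mem_UU {R : Finset V} {a b z : V} : z ∈ UU H R a b ↔ Tr H R a b z := by
  simp [UU]

end

theorem q12 : S_q12 := by
  intro V _ _ H B k
  constructor
  · refine fib _ _ (fun p => (p.1, p.2.1, p.2.2.1, p.2.2.2.1)) (fun p => p.2.2.2.2.2) B
      ?_ ?_ (fun p => UU H p.1 p.2.1 p.2.2.2.1) ?_ ?_
    · rintro ⟨R, a, b, x, c, z⟩ hp
      obtain ⟨hp, -⟩ := mem_filter.1 hp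
      rw [mem_QQ] at hp
      exact mem_TL.2 ⟨hp.1, hp.2.1⟩
    · rintro ⟨R, a, b, x, c, z⟩ hp ⟨R', a', b', x', c', z'⟩ hq h h'
      obtain ⟨-, hp⟩ := mem_filter.1 hp
      obtain ⟨-, hq⟩ := mem_filter.1 hq
      simp only [Prod.mk.injEq] at hp hq h h' ⊢
      obtain ⟨h1, h2, h3, h4⟩ := h
      exact ⟨h1, h2, h3, h4, by rw [hp, hq, h2], h'⟩
    · rintro ⟨R, a, b, x, c, z⟩ hp
      obtain ⟨hp, -⟩ := mem_filter.1 hp
      rw [mem_QQ] at hp
      rw [card_UU]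
      exact hp.2.1.2.2.1.le
    · rintro ⟨R, a, b, x, c, z⟩ hp ⟨R', a', b', x', c', z'⟩ hq h
      obtain ⟨hq, hq2⟩ := mem_filter.1 hq
      rw [mem_QQ] at hq
      simp only [Prod.mk.injEq] at h hq2
      obtain ⟨rfl, rfl, rfl, rfl⟩ := h
      subst hq2
      rw [mem_UU]
      exact Tr_swap23 hq.2.2.1
  · refine fib _ _ (fun p => (p.1, p.2.1, p.2.2.1, p.2.2.2.1)) (fun p => p.2.2.2.2.2) B
      ?_ ?_ (fun p => UU H p.1 p.2.2.1 p.2.2.2.1) ?_ ?_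
    · rintro ⟨R, a, b, x, c, z⟩ hp
      obtain ⟨hp, -⟩ := mem_filter.1 hp
      rw [mem_QQ] at hp
      exact mem_TL.2 ⟨hp.1, hp.2.1⟩
    · rintro ⟨R, a, b, x, c, z⟩ hp ⟨R', a', b', x', c', z'⟩ hq h h'
      obtain ⟨-, hp⟩ := mem_filter.1 hp
      obtain ⟨-, hq⟩ := mem_filter.1 hq
      simp only [Prod.mk.injEq] at hp hq h h' ⊢
      obtain ⟨h1, h2, h3, h4⟩ := h
      exact ⟨h1, h2, h3, h4, by rw [hp, hq, h3], h'⟩
    · rintro ⟨R, a, b, x, c, z⟩ hp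
      obtain ⟨hp, -⟩ := mem_filter.1 hp
      rw [mem_QQ] at hp
      rw [card_UU]
      exact hp.2.1.2.2.2.le
    · rintro ⟨R, a, b, x, c, z⟩ hp ⟨R', a', b', x', c', z'⟩ hq h
      obtain ⟨hq, hq2⟩ := mem_filter.1 hq
      rw [mem_QQ] at hq
      simp only [Prod.mk.injEq] at h hq2
      obtain ⟨rfl, rfl, rfl, rfl⟩ := h
      subst hq2
      rw [mem_UU]
      exact Tr_swap23 hq.2.2.1

theorem q34 : S_q34 := by
  intro V _ _ H B k
  constructor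
  · refine fib _ _ (fun p => (p.1, p.2.2.2.1, p.2.2.1, p.2.1, p.2.2.2.2.1))
      (fun p => p.2.2.2.2.2) B ?_ ?_ (fun p => UU H p.1 p.2.2.2.2.1 p.2.2.2.1) ?_ ?_
    · rintro ⟨R, a, b, x, c, z⟩ hp
      obtain ⟨hp, hp2⟩ := mem_filter.1 hp
      rw [mem_QQ] at hp
      exact mem_PP.2 ⟨hp.1, Lt_swap12 (Lt_swap23 (Lt_swap12 hp.2.1)), hp2⟩
    · rintro ⟨R, a, b, x, c, z⟩ hp ⟨R', a', b', x', c', z'⟩ hq h h'
      simp only [Prod.mk.injEq] at h h' ⊢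
      obtain ⟨h1, h2, h3, h4, h5⟩ := h
      exact ⟨h1, h4, h3, h2, h5, h'⟩
    · rintro ⟨R, a, b, x, c, z⟩ hp
      obtain ⟨hp, -⟩ := mem_filter.1 hp
      rw [mem_QQ] at hp
      rw [card_UU]
      exact hp.2.2.2.2.1.le
    · rintro ⟨R, a, b, x, c, z⟩ hp ⟨R', a', b', x', c', z'⟩ hq h
      obtain ⟨hq, -⟩ := mem_filter.1 hq
      rw [mem_QQ] at hq
      simp only [Prod.mk.injEq] at h
      obtain ⟨rfl, rfl, rfl, rfl, rfl⟩ := h
      rw [mem_UU]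
      exact Tr_swap23 hq.2.2.1
  · refine fib _ _ (fun p => (p.1, p.2.2.2.1, p.2.1, p.2.2.1, p.2.2.2.2.1))
      (fun p => p.2.2.2.2.2) B ?_ ?_ (fun p => UU H p.1 p.2.2.2.2.1 p.2.2.2.1) ?_ ?_
    · rintro ⟨R, a, b, x, c, z⟩ hp
      obtain ⟨hp, hp2⟩ := mem_filter.1 hp
      rw [mem_QQ] at hp
      exact mem_PP.2 ⟨hp.1, Lt_swap12 (Lt_swap23 hp.2.1), hp2⟩
    · rintro ⟨R, a, b, x, c, z⟩ hp ⟨R', a', b', x', c', z'⟩ hq h h'
      simp only [Prod.mk.injEq] at h h' ⊢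
      obtain ⟨h1, h2, h3, h4, h5⟩ := h
      exact ⟨h1, h3, h4, h2, h5, h'⟩
    · rintro ⟨R, a, b, x, c, z⟩ hp
      obtain ⟨hp, -⟩ := mem_filter.1 hp
      rw [mem_QQ] at hp
      rw [card_UU]
      exact hp.2.2.2.2.1.le
    · rintro ⟨R, a, b, x, c, z⟩ hp ⟨R', a', b', x', c', z'⟩ hq h
      obtain ⟨hq, -⟩ := mem_filter.1 hq
      rw [mem_QQ] at hq
      simp only [Prod.mk.injEq] at h
      obtain ⟨rfl, rfl, rfl, rfl, rfl⟩ := h
      rw [mem_UU]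
      exact Tr_swap23 hq.2.2.1

end Pool.Agent.H115.TK
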